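import Mathlib
import Pool.Agent.Y822.Cnt

/-! Counting integers in a residue class at which two linear forms are rough. -/

set_option autoImplicit false

namespace Pool.Agent.Y822.F

open Finset
open Pool.Agent.W41 (JJ)
open Pool.Agent.Y822 (Ro ro ro_nonneg ro_le_one card_affine Ad Ad_nonneg)

/-- the value of the linear form `a` at `n` -/
def lf (a : ℕ × ℕ) (n : ℕ) : ℕ := a.1 * n + a.2

lemma lf_mod (a : ℕ × ℕ) (n p : ℕ) : lf a (n % p) ≡ lf a n [MOD p] :=
  Nat.ModEq.add_right a.2 (Nat.ModEq.mul_left a.1 (Nat.mod_modEq n p))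

lemma dvd_lf_mod (a : ℕ × ℕ) (n p : ℕ) : p ∣ lf a (n % p) ↔ p ∣ lf a n :=
  ⟨fun h => (Nat.modEq_zero_iff_dvd).1 ((lf_mod a n p).symm.trans ((Nat.modEq_zero_iff_dvd).2 h)),
    fun h => (Nat.modEq_zero_iff_dvd).1 ((lf_mod a n p).trans ((Nat.modEq_zero_iff_dvd).2 h))⟩

/-- a form is primitive if its coefficients are coprime -/
def Prim (a : ℕ × ℕ) : Prop := Nat.Coprime a.1 a.2

/-- number of classes modulo `p` forbidden by the two forms -/
def fb (a a' : ℕ × ℕ) (p : ℕ) : ℕ := ((range p).filter (fun r => p ∣ lf a r ∨ p ∣ lf a' r)).card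

/-- local density of the two forms being rough -/
noncomputable def Vy (y : ℕ) (a a' : ℕ × ℕ) : ℝ :=
  ∏ p ∈ (Icc 1 y).filter Nat.Prime, (1 - (fb a a' p : ℝ) / p)

lemma card_one_class {a : ℕ × ℕ} (ha : Prim a) {p : ℕ} (hp : p.Prime) :
    ((range p).filter (fun r => p ∣ lf a r)).card ≤ 1 := by
  rw [card_le_one]
  intro r hr r' hr'
  rw [mem_filter, mem_range] at hr hr'
  have hc : Nat.Coprime p a.1 := by
    rw [hp.coprime_iff_not_dvd]
    intro h
    have h2 : p ∣ a.2 := (Nat.dvd_add_right (h.mul_right r)).1 hr.2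
    have h3 := Nat.dvd_gcd h h2
    rw [ha] at h3
    exact hp.one_lt.ne' (Nat.dvd_one.1 h3)
  have h : lf a r ≡ lf a r' [MOD p] :=
    ((Nat.modEq_zero_iff_dvd).2 hr.2).trans ((Nat.modEq_zero_iff_dvd).2 hr'.2).symm
  have h1 : a.1 * r ≡ a.1 * r' [MOD p] := Nat.ModEq.add_right_cancel' a.2 h
  have h2 : r ≡ r' [MOD p] := Nat.ModEq.cancel_left_of_coprime hc h1
  exact Nat.ModEq.eq_of_lt_of_lt h2 hr.1 hr'.1

lemma fb_le {a a' : ℕ × ℕ} (ha : Prim a) (ha' : Prim a') {p : ℕ} (hp : p.Prime) : fb a a' p ≤ 2 := by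
  unfold fb
  rw [filter_or]
  refine (card_union_le _ _).trans ?_
  have h1 := card_one_class ha hp
  have h2 := card_one_class ha' hp
  omega

lemma fb_le_p (a a' : ℕ × ℕ) (p : ℕ) : fb a a' p ≤ p := (card_filter_le _ _).trans (card_range p).le

lemma Vy_nonneg (y : ℕ) (a a' : ℕ × ℕ) : 0 ≤ Vy y a a' := by
  refine prod_nonneg fun p _ => ?_
  rw [sub_nonneg]
  apply div_le_one_of_le₀ _ (Nat.cast_nonneg _)
  exact_mod_cast fb_le_p a a' p

lemma Vy_le_one (y : ℕ) (a a' : ℕ × ℕ) : Vy y a a' ≤ 1 := by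
  refine prod_le_one (fun p _ => ?_) (fun p _ => ?_)
  · rw [sub_nonneg]
    apply div_le_one_of_le₀ _ (Nat.cast_nonneg _)
    exact_mod_cast fb_le_p a a' p
  · have : 0 ≤ (fb a a' p : ℝ) / p := by positivity
    linarith

/-- counting in one residue class -/
theorem cnt : ∃ C0 K0 : ℕ, 1 ≤ C0 ∧ 1 ≤ K0 ∧ ∀ b : ℕ, C0 ≤ b → ∀ y : ℕ, 2 ≤ y →
    ∀ (N : ℕ) (f f' : ℕ × ℕ), Prim f → Prim f' → ∀ a a' d d' : ℕ, 1 ≤ d → 1 ≤ d' → Ro y d → Ro y d' →
    Nat.Coprime d d' →
    |∑ n ∈ Icc 1 N, ro y (lf f n) * ro y (lf f' n) *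
        ((if d ∣ n + a then 1 else 0) * (if d' ∣ n + a' then 1 else 0)) -
      (N : ℝ) / (d * d') * Vy y f f'| ≤ (1 / 2) ^ b * ((N : ℝ) / (d * d')) + 2 + Ad C0 K0 b y := by
  obtain ⟨C0, K0, hC0, hK0, hfl⟩ := Pool.Agent.TH892.SW.fl_set 2
  refine ⟨C0, K0, hC0, hK0, ?_⟩
  intro b hb y hy N f f' hf hf' a a' d d' hd hd' hrd hrd' hcop
  classical
  set q := d * d' with hq
  have hq1 : 1 ≤ q := Nat.mul_pos hd hd'
  -- the residue class
  obtain ⟨c0, hc01, hc0q, hc0⟩ : ∃ c0 : ℕ, 1 ≤ c0 ∧ c0 ≤ q ∧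
      ∀ n : ℕ, (d ∣ n + a ∧ d' ∣ n + a') ↔ n ≡ c0 [MOD q] := by
    obtain ⟨c, hc1, hc2⟩ := Nat.chineseRemainder hcop (d * a - a + 0) (d' * a' - a' + 0)
    have hca : d ∣ c + a := by
      have h1 : c + a ≡ d * a - a + 0 + a [MOD d] := Nat.ModEq.add_right a hc1
      have h2 : d * a - a + 0 + a = d * a := by
        have : a ≤ d * a := Nat.le_mul_of_pos_left a hd
        omega
      rw [h2] at h1
      exact (Nat.modEq_zero_iff_dvd).1 (h1.trans ((Nat.modEq_zero_iff_dvd).2 (Dvd.intro _ rfl)))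
    have hca' : d' ∣ c + a' := by
      have h1 : c + a' ≡ d' * a' - a' + 0 + a' [MOD d'] := Nat.ModEq.add_right a' hc2
      have h2 : d' * a' - a' + 0 + a' = d' * a' := by
        have : a' ≤ d' * a' := Nat.le_mul_of_pos_left a' hd'
        omega
      rw [h2] at h1
      exact (Nat.modEq_zero_iff_dvd).1 (h1.trans ((Nat.modEq_zero_iff_dvd).2 (Dvd.intro _ rfl)))
    have hiff : ∀ n : ℕ, (d ∣ n + a ∧ d' ∣ n + a') ↔ n ≡ c [MOD q] := by
      intro n
      constructor
      · rintro ⟨h1, h2⟩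
        rw [hq]
        refine (Nat.modEq_and_modEq_iff_modEq_mul hcop).1 ⟨?_, ?_⟩
        · exact Nat.ModEq.add_right_cancel' a (((Nat.modEq_zero_iff_dvd).2 h1).trans
            ((Nat.modEq_zero_iff_dvd).2 hca).symm)
        · exact Nat.ModEq.add_right_cancel' a' (((Nat.modEq_zero_iff_dvd).2 h2).trans
            ((Nat.modEq_zero_iff_dvd).2 hca').symm)
      · intro h
        rw [hq] at h
        obtain ⟨h1, h2⟩ := (Nat.modEq_and_modEq_iff_modEq_mul hcop).2 h
        exact ⟨(Nat.modEq_zero_iff_dvd).1 ((Nat.ModEq.add_right a h1).trans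
            ((Nat.modEq_zero_iff_dvd).2 hca)),
          (Nat.modEq_zero_iff_dvd).1 ((Nat.ModEq.add_right a' h2).trans
            ((Nat.modEq_zero_iff_dvd).2 hca'))⟩
    by_cases h0 : c % q = 0
    · refine ⟨q, hq1, le_rfl, fun n => (hiff n).trans ?_⟩
      have : c ≡ q [MOD q] := by
        show c % q = q % q
        rw [h0, Nat.mod_self]
      exact ⟨fun h => h.trans this, fun h => h.trans this.symm⟩
    · refine ⟨c % q, Nat.pos_of_ne_zero h0, (Nat.mod_lt _ hq1).le, fun n => (hiff n).trans ?_⟩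
      have : c ≡ c % q [MOD q] := (Nat.mod_modEq c q).symm
      exact ⟨fun h => h.trans this, fun h => h.trans this.symm⟩
  set X := (N + q - c0) / q with hX
  set P := (Icc 1 y).filter Nat.Prime with hP
  have hPq : ∀ p ∈ P, Nat.Coprime p q := by
    intro p hp
    rw [hP, mem_filter, mem_Icc] at hp
    rw [hq]
    exact Nat.Coprime.mul_right ((Nat.Prime.coprime_iff_not_dvd hp.2).2 (hrd p hp.2 hp.1.2))
      ((Nat.Prime.coprime_iff_not_dvd hp.2).2 (hrd' p hp.2 hp.1.2))
  obtain ⟨R, hR⟩ : ∃ R : ℕ → ℕ → Prop, ∀ p x, R p x ↔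
      (p ∣ lf f ((c0 + q * (p - 1) + q * x) % p) ∨ p ∣ lf f' ((c0 + q * (p - 1) + q * x) % p)) :=
    ⟨_, fun _ _ => Iff.rfl⟩
  have hcard : ∀ p ∈ P, ((range p).filter (fun x => R p x)).card = fb f f' p := by
    intro p hp
    have hp0 : 0 < p := by
      rw [hP, mem_filter] at hp
      exact hp.2.pos
    have h1 := card_affine p q (c0 + q * (p - 1)) (hPq p hp) hp0
      (fun r => p ∣ lf f r ∨ p ∣ lf f' r)
    unfold fb
    rw [← h1]
    exact congrArg card (filter_congr fun x _ => hR p x)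
  have key := hfl b hb y hy X P R (fun p hp => by
    refine ⟨(mem_filter.1 hp).2, (mem_Icc.1 (mem_filter.1 hp).1).2, ?_⟩
    rw [hcard p hp]
    exact fb_le hf hf' (mem_filter.1 hp).2)
  have hprod : ∏ p ∈ P, (1 - (((range p).filter (fun a => R p a)).card : ℝ) / p) = Vy y f f' := by
    unfold Vy
    refine prod_congr rfl fun p hp => ?_
    rw [hcard p hp]
  rw [hprod] at key
  -- the count
  have hcount : ∑ n ∈ Icc 1 N, ro y (lf f n) * ro y (lf f' n) *
        ((if d ∣ n + a then 1 else 0) * (if d' ∣ n + a' then 1 else 0)) =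
      (((Icc 1 X).filter (fun n => ∀ p ∈ P, ¬ R p (n % p))).card : ℝ) := by
    have h1 : ∀ n ∈ Icc 1 N, ro y (lf f n) * ro y (lf f' n) *
        ((if d ∣ n + a then 1 else 0) * (if d' ∣ n + a' then 1 else 0)) =
        (if ((Ro y (lf f n) ∧ Ro y (lf f' n)) ∧ n ≡ c0 [MOD q]) then (1 : ℝ) else 0) := by
      intro n _
      unfold ro
      by_cases e1 : Ro y (lf f n) <;> by_cases e2 : Ro y (lf f' n) <;> by_cases e3 : d ∣ n + a <;>
        by_cases e4 : d' ∣ n + a' <;> simp [e1, e2, e3, e4, ← hc0 n]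
    rw [sum_congr rfl h1, ← sum_filter, sum_const, nsmul_eq_mul, mul_one]
    congr 1
    symm
    refine card_bij (fun m _ => c0 + q * (m - 1)) ?_ ?_ ?_
    · intro m hm
      rw [mem_filter, mem_Icc] at hm
      obtain ⟨⟨hm1, hmX⟩, hmR⟩ := hm
      have hN : c0 + q * (m - 1) ≤ N := by
        have h2 : q * m ≤ N + q - c0 := by
          calc q * m ≤ q * X := Nat.mul_le_mul_left q hmX
            _ ≤ N + q - c0 := by rw [hX]; exact Nat.mul_div_le _ _
        have h3 : q * (m - 1) = q * m - q := by rw [Nat.mul_sub, mul_one]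
        have h4 : q ≤ q * m := Nat.le_mul_of_pos_right q hm1
        omega
      rw [mem_filter, mem_Icc]
      have hdv : ∀ p ∈ P, (p ∣ lf f (c0 + q * (m - 1)) ∨ p ∣ lf f' (c0 + q * (m - 1))) → R p (m % p) := by
        intro p hp h
        have hp0 : 0 < p := by
          rw [hP, mem_filter] at hp
          exact hp.2.pos
        have hmod : (c0 + q * (p - 1) + q * (m % p)) % p = (c0 + q * (m - 1)) % p := by
          have e1 : c0 + q * (p - 1) + q * (m % p) ≡ c0 + q * (p - 1) + q * m [MOD p] :=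
            Nat.ModEq.add_left _ (Nat.ModEq.mul_left q (Nat.mod_modEq m p))
          have e2 : c0 + q * (p - 1) + q * m = c0 + q * (m - 1) + q * p := by
            obtain ⟨m', rfl⟩ : ∃ m', m = m' + 1 := ⟨m - 1, by omega⟩
            obtain ⟨p', rfl⟩ : ∃ p', p = p' + 1 := ⟨p - 1, by omega⟩
            simp only [Nat.add_sub_cancel]
            ring
          rw [e2] at e1
          have e3 : c0 + q * (m - 1) + q * p ≡ c0 + q * (m - 1) [MOD p] := by
            have : q * p ≡ 0 [MOD p] := (Nat.modEq_zero_iff_dvd).2 (Dvd.intro_left q rfl)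
            simpa using Nat.ModEq.add_left (c0 + q * (m - 1)) this
          exact e1.trans e3
        rw [hR, hmod]
        rcases h with h | h
        · left
          exact (dvd_lf_mod _ _ _).2 h
        · right
          exact (dvd_lf_mod _ _ _).2 h
      refine ⟨⟨by omega, hN⟩, ⟨?_, ?_⟩, ?_⟩
      · intro p hp hpy hdiv
        have hpP : p ∈ P := by
          rw [hP, mem_filter, mem_Icc]
          exact ⟨⟨hp.one_lt.le, hpy⟩, hp⟩
        exact hmR p hpP (hdv p hpP (Or.inl hdiv))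
      · intro p hp hpy hdiv
        have hpP : p ∈ P := by
          rw [hP, mem_filter, mem_Icc]
          exact ⟨⟨hp.one_lt.le, hpy⟩, hp⟩
        exact hmR p hpP (hdv p hpP (Or.inr hdiv))
      · have : q * (m - 1) ≡ 0 [MOD q] := (Nat.modEq_zero_iff_dvd).2 (Dvd.intro _ rfl)
        simpa using Nat.ModEq.add_left c0 this
    · intro m hm m' hm' h
      rw [mem_filter, mem_Icc] at hm hm'
      have h2 : q * (m - 1) = q * (m' - 1) := by
        have h' : c0 + q * (m - 1) = c0 + q * (m' - 1) := h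
        omega
      have h3 := Nat.eq_of_mul_eq_mul_left hq1 h2
      omega
    · intro n hn
      rw [mem_filter, mem_Icc] at hn
      obtain ⟨⟨hn1, hnN⟩, ⟨hr1, hr2⟩, hmod⟩ := hn
      have hle : c0 ≤ n := by
        by_contra hlt
        push Not at hlt
        have h1 : n < q := lt_of_lt_of_le hlt hc0q
        have h2 : n % q = c0 % q := hmod
        rw [Nat.mod_eq_of_lt h1] at h2
        rcases Nat.lt_or_ge c0 q with h3 | h3
        · rw [Nat.mod_eq_of_lt h3] at h2; omega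
        · have : c0 = q := le_antisymm hc0q h3
          rw [this, Nat.mod_self] at h2
          omega
      obtain ⟨t, ht⟩ : q ∣ n - c0 := (Nat.modEq_iff_dvd' hle).1 hmod.symm
      have hnt : n = c0 + q * t := by omega
      refine ⟨t + 1, ?_, ?_⟩
      · rw [mem_filter, mem_Icc]
        refine ⟨⟨by omega, ?_⟩, ?_⟩
        · rw [hX, Nat.le_div_iff_mul_le hq1]
          have : (t + 1) * q = q * t + q := by ring
          omega
        · intro p hp hRp
          have hpp : p.Prime := (mem_filter.1 hp).2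
          have hpy : p ≤ y := (mem_Icc.1 (mem_filter.1 hp).1).2
          have hmod2 : (c0 + q * (p - 1) + q * ((t + 1) % p)) % p = n % p := by
            have e1 : c0 + q * (p - 1) + q * ((t + 1) % p) ≡ c0 + q * (p - 1) + q * (t + 1) [MOD p] :=
              Nat.ModEq.add_left _ (Nat.ModEq.mul_left q (Nat.mod_modEq (t + 1) p))
            have e2 : c0 + q * (p - 1) + q * (t + 1) = n + q * p := by
              obtain ⟨p', rfl⟩ : ∃ p', p = p' + 1 := ⟨p - 1, by have := hpp.pos; omega⟩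
              simp only [Nat.add_sub_cancel]
              rw [hnt]
              ring
            rw [e2] at e1
            have e3 : n + q * p ≡ n [MOD p] := by
              have : q * p ≡ 0 [MOD p] := (Nat.modEq_zero_iff_dvd).2 (Dvd.intro_left q rfl)
              simpa using Nat.ModEq.add_left n this
            exact e1.trans e3
          rw [hR, hmod2] at hRp
          rcases hRp with h | h
          · exact hr1 p hpp hpy ((dvd_lf_mod _ _ _).1 h)
          · exact hr2 p hpp hpy ((dvd_lf_mod _ _ _).1 h)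
      · simp only [Nat.add_sub_cancel]
        exact hnt.symm
  rw [hcount]
  have hq0 : (0 : ℝ) < q := by exact_mod_cast hq1
  have hXq : |(X : ℝ) - N / q| ≤ 1 := by
    have h1 : ((N + q - c0 : ℕ) : ℝ) = (N : ℝ) + q - c0 := by
      rw [Nat.cast_sub (by omega)]
      push_cast
      ring
    have h2 : (X : ℝ) ≤ ((N : ℝ) + q - c0) / q := by
      rw [hX, ← h1]
      exact Nat.cast_div_le
    have h3 : ((N : ℝ) + q - c0) / q < X + 1 := by
      rw [div_lt_iff₀ hq0, ← h1]
      have := Nat.lt_div_mul_add (a := N + q - c0) hq1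
      rw [← hX] at this
      have h4 : ((N + q - c0 : ℕ) : ℝ) < ((X * q + q : ℕ) : ℝ) := by exact_mod_cast this
      push_cast at h4
      linarith
    have hc0' : (1 : ℝ) ≤ c0 := by exact_mod_cast hc01
    have hc0'' : (c0 : ℝ) ≤ q := by exact_mod_cast hc0q
    have e : ((N : ℝ) + q - c0) / q = N / q + 1 - c0 / q := by field_simp
    have e2 : (c0 : ℝ) / q ≤ 1 := by rw [div_le_one hq0]; exact hc0''
    have e3 : 0 ≤ (c0 : ℝ) / q := by positivity
    rw [abs_le]
    constructor <;> linarith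
  have hqc : (q : ℝ) = (d : ℝ) * d' := by rw [hq]; push_cast; rfl
  rw [← hqc]
  have hV0 := Vy_nonneg y f f'
  have hV1 := Vy_le_one y f f'
  have hX0 : (0 : ℝ) ≤ X := Nat.cast_nonneg _
  have hA : Ad C0 K0 b y = ((JJ y : ℝ) + 2) * ((y : ℝ) ^ (2 * (C0 * b)) *
      (K0 * (y : ℝ) ^ (2 * (C0 * b)))) := rfl
  rw [← hA] at key
  have h2b : (0 : ℝ) < (1 / 2) ^ b := by positivity
  have h2b1 : ((1 : ℝ) / 2) ^ b ≤ 1 := pow_le_one₀ (by norm_num) (by norm_num)
  have hXle : (X : ℝ) ≤ N / q + 1 := by linarith [(abs_le.1 hXq).2]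
  have hNq : 0 ≤ (N : ℝ) / q := by positivity
  have e1 : (1 / 2 : ℝ) ^ b * (X * Vy y f f') ≤ (1 / 2) ^ b * ((N : ℝ) / q) + 1 := by
    have : (X : ℝ) * Vy y f f' ≤ (N / q + 1) * 1 :=
      mul_le_mul hXle hV1 hV0 (by linarith)
    calc (1 / 2 : ℝ) ^ b * (X * Vy y f f') ≤ (1 / 2 : ℝ) ^ b * (N / q + 1) := by
          apply mul_le_mul_of_nonneg_left _ h2b.le
          linarith
      _ ≤ _ := by nlinarith
  have e2 : |(X : ℝ) * Vy y f f' - N / q * Vy y f f'| ≤ 1 := by
    rw [← sub_mul, abs_mul, abs_of_nonneg hV0]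
    calc |(X : ℝ) - N / q| * Vy y f f' ≤ 1 * 1 := mul_le_mul hXq hV1 hV0 zero_le_one
      _ = 1 := one_mul 1
  have e3 : ∀ x : ℝ, |x - X * Vy y f f'| ≤ (1 / 2 : ℝ) ^ b * (X * Vy y f f') + Ad C0 K0 b y →
      |x - N / q * Vy y f f'| ≤ (1 / 2) ^ b * ((N : ℝ) / q) + 2 + Ad C0 K0 b y := by
    intro x hx
    have := abs_sub_le x (X * Vy y f f') (N / q * Vy y f f')
    linarith
  exact e3 _ key

end Pool.Agent.Y822.F
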