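import Mathlib
import Pool.Agent.Y822.Corr
import Pool.Agent.Y822.F.Cnt

/-! Correlations of centred divisor sums at linear forms: preparations. The divisibility of the value of
the form by the moduli above `y` is expressed with a shift `s` (a surrogate). -/

set_option autoImplicit false

namespace Pool.Agent.Y822.F

open Finset
open Pool.Agent.Y822

/-- centred divisor sum at the shift `s` on the set where the form `a` is rough -/
noncomputable def GF (y D : ℕ) (c : ℕ → ℝ) (a : ℕ × ℕ) (s n : ℕ) : ℝ :=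
  ro y (lf a n) * ∑ d ∈ Icc 1 D, c d * cen d (n + s)

/-- every relevant divisor of `m` divides a positive number `≤ M` -/
def Dm (y D m M : ℕ) : Prop := ∃ m' : ℕ, 1 ≤ m' ∧ m' ≤ M ∧ ∀ d ∈ SD y D, d ∣ m → d ∣ m'

section
variable {y D : ℕ} {c : ℕ → ℝ}

/-- pointwise bound for divisor sums -/
lemma abs_ds_le (hc : Co y c) (hy : 2 ≤ y) {m M : ℕ} (hm : Dm y D m M) :
    ∑ d ∈ SD y D, |c d| * (if d ∣ m then 1 else 0) ≤ 4 ^ Nat.log y M := by
  classical
  obtain ⟨m', h1, h2, h3⟩ := hm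
  refine le_trans (sum_le_sum fun d hd => ?_) (Pool.Agent.Y822.abs_ds_le (D := D) hc hy h1 h2)
  refine mul_le_mul_of_nonneg_left ?_ (abs_nonneg _)
  by_cases h : d ∣ m
  · rw [if_pos h, if_pos (h3 d hd h)]
  · rw [if_neg h]
    split_ifs <;> norm_num

lemma abs_GF_le (hc : Co y c) (hy : 2 ≤ y) {a : ℕ × ℕ} {s n M : ℕ} (hm : Dm y D (n + s) M) :
    |GF y D c a s n| ≤ 4 ^ Nat.log y M + EE y D := by
  unfold GF
  rw [abs_mul, abs_of_nonneg (ro_nonneg y _), sum_SD hc]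
  calc ro y (lf a n) * |∑ d ∈ SD y D, c d * cen d (n + s)|
      ≤ 1 * |∑ d ∈ SD y D, c d * cen d (n + s)| :=
        mul_le_mul_of_nonneg_right (ro_le_one y _) (abs_nonneg _)
    _ = |∑ d ∈ SD y D, c d * cen d (n + s)| := one_mul _
    _ ≤ ∑ d ∈ SD y D, |c d * cen d (n + s)| := abs_sum_le_sum_abs _ _
    _ ≤ ∑ d ∈ SD y D, (|c d| * (if d ∣ n + s then 1 else 0) + |c d| / d) := by
        refine sum_le_sum fun d _ => ?_
        rw [abs_mul]
        calc |c d| * |cen d (n + s)| ≤ |c d| * acen d (n + s) :=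
              mul_le_mul_of_nonneg_left (abs_cen_le d _) (abs_nonneg _)
          _ = _ := by unfold acen; ring
    _ ≤ _ := by
        rw [sum_add_distrib]
        exact add_le_add (abs_ds_le hc hy hm) (sum_c_div hc)

/-- diagonal -/
lemma diag_le (hc : Co y c) (hy : 2 ≤ y) (N : ℕ) {a : ℕ × ℕ} {s M : ℕ}
    (hm : ∀ n ∈ Icc 1 N, Dm y D (n + s) M) :
    ∑ n ∈ Icc 1 N, GF y D c a s n ^ 2 ≤ N * (4 ^ Nat.log y M + EE y D) ^ 2 := by
  calc ∑ n ∈ Icc 1 N, GF y D c a s n ^ 2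
      ≤ ∑ _n ∈ Icc 1 N, ((4 : ℝ) ^ Nat.log y M + EE y D) ^ 2 := by
        refine sum_le_sum fun n hn => ?_
        rw [← sq_abs]
        exact pow_le_pow_left₀ (abs_nonneg _) (abs_GF_le hc hy (hm n hn)) 2
    _ = _ := by rw [sum_const, Nat.card_Icc, nsmul_eq_mul]; simp

lemma Tp_le (hc : Co y c) (hy : 2 ≤ y) {p m M : ℕ} (hp : p.Prime) (hm : Dm y D m M) :
    Tp y D c p m ≤ (4 ^ Nat.log y M + 3 * EE y D) * acen p m := by
  classical
  have h1 : Tp y D c p m ≤ (if p ∣ m then 1 else 0) * (4 : ℝ) ^ Nat.log y M + 3 / p * EE y D := by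
    unfold Tp
    have h : ∀ d ∈ SD y D, |c d| * (if p ∣ d then acen d m else 0) ≤
        (if p ∣ m then 1 else 0) * (|c d| * (if d ∣ m then 1 else 0)) +
          (if p ∣ d then (3 : ℝ) ^ d.primeFactors.card / d else 0) := by
      intro d _
      by_cases hpd : p ∣ d
      · rw [if_pos hpd, if_pos hpd]
        unfold acen
        have h3 : |c d| * (1 / (d : ℝ)) ≤ (3 : ℝ) ^ d.primeFactors.card / d := by
          rw [mul_one_div]
          exact div_le_div_of_nonneg_right (hc.bd d) (Nat.cast_nonneg d)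
        by_cases hdm : d ∣ m
        · rw [if_pos hdm, if_pos (hpd.trans hdm)]
          rw [mul_add]
          linarith
        · rw [if_neg hdm]
          rw [mul_add]
          simp only [mul_zero, zero_add]
          exact h3
      · rw [if_neg hpd, if_neg hpd]
        have : 0 ≤ |c d| * (if d ∣ m then (1 : ℝ) else 0) := by
          refine mul_nonneg (abs_nonneg _) ?_
          split_ifs <;> norm_num
        split_ifs <;> simp
    refine (sum_le_sum h).trans ?_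
    rw [sum_add_distrib, ← mul_sum, ← sum_filter]
    refine add_le_add ?_ (sum_div_le' y D p hp)
    refine mul_le_mul_of_nonneg_left (abs_ds_le hc hy hm) ?_
    split_ifs <;> norm_num
  refine h1.trans ?_
  unfold acen
  have hE := (EE_pos y D).le
  have h4 : (0 : ℝ) ≤ 4 ^ Nat.log y M := by positivity
  have hp0 : (0 : ℝ) ≤ 1 / (p : ℝ) := by positivity
  have e : (3 : ℝ) / p * EE y D = 3 * EE y D * (1 / p) := by ring
  rw [e]
  split_ifs
  · nlinarith [mul_nonneg h4 hp0]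
  · nlinarith [mul_nonneg h4 hp0]

end

/-! ### Surrogates -/

/-- `s` represents the form `a` for the primes up to `N` which do not divide its leading coefficient -/
def Sur (N : ℕ) (a : ℕ × ℕ) (s : ℕ) : Prop :=
  ∀ p : ℕ, p.Prime → p ≤ N → ¬ p ∣ a.1 → ∀ n : ℕ, (p ∣ n + s ↔ p ∣ lf a n)

lemma exists_sur (N : ℕ) (a : ℕ × ℕ) (ha : Prim a) : ∃ s, Sur N a s := by
  classical
  set P := ∏ p ∈ ((Icc 1 N).filter Nat.Prime).filter (fun p => ¬ p ∣ a.1), p with hP
  have hcop : Nat.Coprime a.1 P := by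
    refine Nat.Coprime.prod_right fun p hp => ?_
    rw [mem_filter, mem_filter] at hp
    exact ((hp.1.2.coprime_iff_not_dvd).2 hp.2).symm
  have hP0 : 0 < P := prod_pos fun p hp => by
    rw [mem_filter, mem_filter] at hp
    exact hp.1.2.pos
  obtain ⟨u, hu⟩ : ∃ u : ℕ, a.1 * u ≡ 1 [MOD P] := by
    rcases Nat.lt_or_ge 1 P with h | h
    · obtain ⟨u, hu⟩ := Nat.exists_mul_mod_eq_one_of_coprime hcop h
      refine ⟨u, ?_⟩
      show a.1 * u % P = 1 % P
      rw [hu.2, Nat.mod_eq_of_lt h]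
    · have : P = 1 := by omega
      rw [this]
      exact ⟨0, Nat.modEq_one⟩
  refine ⟨a.2 * u, fun p hp hpN hpa n => ?_⟩
  have hpP : p ∣ P := dvd_prod_of_mem _ (by
    rw [mem_filter, mem_filter, mem_Icc]
    exact ⟨⟨⟨hp.one_lt.le, hpN⟩, hp⟩, hpa⟩)
  have h1 : a.1 * (n + a.2 * u) ≡ lf a n [MOD p] := by
    have h2 : a.2 * (a.1 * u) ≡ a.2 * 1 [MOD p] := (hu.of_dvd hpP).mul_left a.2
    have h3 := Nat.ModEq.add_left (a.1 * n) h2
    have e1 : a.1 * (n + a.2 * u) = a.1 * n + a.2 * (a.1 * u) := by ring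
    rw [e1]
    unfold lf
    rw [mul_one] at h3
    exact h3
  constructor
  · intro h
    have h4 : p ∣ a.1 * (n + a.2 * u) := h.mul_left _
    exact (Nat.modEq_zero_iff_dvd).1 (h1.symm.trans ((Nat.modEq_zero_iff_dvd).2 h4))
  · intro h
    have h4 : p ∣ a.1 * (n + a.2 * u) :=
      (Nat.modEq_zero_iff_dvd).1 (h1.trans ((Nat.modEq_zero_iff_dvd).2 h))
    exact ((Nat.Coprime.dvd_mul_left ((hp.coprime_iff_not_dvd).2 hpa)).1 h4)

open Classical in
/-- the surrogate of a form -/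
noncomputable def sg (N : ℕ) (a : ℕ × ℕ) : ℕ := if h : Prim a then (exists_sur N a h).choose else 0

lemma sg_spec (N : ℕ) {a : ℕ × ℕ} (ha : Prim a) : Sur N a (sg N a) := by
  unfold sg
  rw [dif_pos ha]
  exact (exists_sur N a ha).choose_spec

/-- the relevant divisors of `n + s` divide `u (u n + v)` -/
lemma Dm_of_sur {N y D : ℕ} (hD : D ≤ N) {a : ℕ × ℕ} (ha1 : 1 ≤ a.1) {s : ℕ} (hs : Sur N a s) {n : ℕ}
    (hn : 1 ≤ n) {M : ℕ} (hM : a.1 * lf a n ≤ M) : Dm y D (n + s) M := by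
  refine ⟨a.1 * lf a n, ?_, hM, ?_⟩
  · refine Nat.mul_pos ha1 ?_
    unfold lf
    have := Nat.mul_pos ha1 hn
    omega
  · intro d hd hdn
    rw [mem_SD] at hd
    rw [← Nat.prod_primeFactors_of_squarefree hd.2.1]
    refine Finset.prod_primes_dvd _ (fun p hp => (Nat.prime_of_mem_primeFactors hp).prime) ?_
    intro p hp
    have hpp := Nat.prime_of_mem_primeFactors hp
    have hpd := Nat.dvd_of_mem_primeFactors hp
    by_cases hpa : p ∣ a.1
    · exact hpa.mul_right _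
    · refine Dvd.dvd.mul_left ?_ _
      exact (hs p hpp (((Nat.le_of_dvd hd.1.1 hpd).trans hd.1.2).trans hD) hpa n).1 (hpd.trans hdn)

/-- the determinant-like number of two forms -/
def Dl (a a' : ℕ × ℕ) : ℕ := a.1 * a'.1 * (max (a'.1 * a.2) (a.1 * a'.2) - min (a'.1 * a.2) (a.1 * a'.2))

lemma prim_cross {a a' : ℕ × ℕ} (ha : Prim a) (ha' : Prim a') (h1 : 1 ≤ a.1) (h1' : 1 ≤ a'.1)
    (h : a'.1 * a.2 = a.1 * a'.2) : a = a' := by
  have h2 : a.1 ∣ a'.1 := by
    have : a.1 ∣ a'.1 * a.2 := h ▸ Dvd.intro _ rfl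
    exact (Nat.Coprime.dvd_mul_right ha).1 this
  have h3 : a'.1 ∣ a.1 := by
    have : a'.1 ∣ a.1 * a'.2 := h ▸ Dvd.intro _ rfl
    exact (Nat.Coprime.dvd_mul_right ha').1 this
  have h4 := Nat.dvd_antisymm h2 h3
  rw [← h4] at h
  have h5 : a.2 = a'.2 := Nat.eq_of_mul_eq_mul_left h1 h
  exact Prod.ext h4 h5

lemma Dl_pos {a a' : ℕ × ℕ} (ha : Prim a) (ha' : Prim a') (h1 : 1 ≤ a.1) (h1' : 1 ≤ a'.1) (hne : a ≠ a') :
    1 ≤ Dl a a' := by
  unfold Dl
  refine Nat.mul_pos (Nat.mul_pos h1 h1') ?_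
  have h2 : a'.1 * a.2 ≠ a.1 * a'.2 := fun h => hne (prim_cross ha ha' h1 h1' h)
  rcases lt_or_gt_of_ne h2 with h | h
  · rw [max_eq_right h.le, min_eq_left h.le]; omega
  · rw [max_eq_left h.le, min_eq_right h.le]; omega

lemma dvd_Dl {N : ℕ} {a a' : ℕ × ℕ} {s s' : ℕ} (hs : Sur N a s) (hs' : Sur N a' s') {p n : ℕ}
    (hp : p.Prime) (hpN : p ≤ N) (h1 : p ∣ n + s) (h2 : p ∣ n + s') : p ∣ Dl a a' := by
  unfold Dl
  by_cases ha : p ∣ a.1
  · exact (ha.mul_right _).mul_right _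
  by_cases ha' : p ∣ a'.1
  · exact (ha'.mul_left _).mul_right _
  refine Dvd.dvd.mul_left ?_ _
  have e1 := (hs p hp hpN ha n).1 h1
  have e2 := (hs' p hp hpN ha' n).1 h2
  unfold lf at e1 e2
  have f1 : p ∣ a'.1 * (a.1 * n + a.2) := e1.mul_left _
  have f2 : p ∣ a.1 * (a'.1 * n + a'.2) := e2.mul_left _
  rcases le_total (a'.1 * a.2) (a.1 * a'.2) with h | h
  · rw [max_eq_right h, min_eq_left h]
    have e : a.1 * a'.2 - a'.1 * a.2 = a.1 * (a'.1 * n + a'.2) - a'.1 * (a.1 * n + a.2) := by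
      have g1 : a.1 * (a'.1 * n + a'.2) = a.1 * a'.1 * n + a.1 * a'.2 := by ring
      have g2 : a'.1 * (a.1 * n + a.2) = a.1 * a'.1 * n + a'.1 * a.2 := by ring
      rw [g1, g2]
      omega
    rw [e]
    exact Nat.dvd_sub f2 f1
  · rw [max_eq_left h, min_eq_right h]
    have e : a'.1 * a.2 - a.1 * a'.2 = a'.1 * (a.1 * n + a.2) - a.1 * (a'.1 * n + a'.2) := by
      have g1 : a.1 * (a'.1 * n + a'.2) = a.1 * a'.1 * n + a.1 * a'.2 := by ring
      have g2 : a'.1 * (a.1 * n + a.2) = a.1 * a'.1 * n + a'.1 * a.2 := by ring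
      rw [g1, g2]
      omega
    rw [e]
    exact Nat.dvd_sub f1 f2

end Pool.Agent.Y822.F
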