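import Mathlib
import Pool.Agent.Y822.F.KL

/-! Correlations of centred rough divisor sums at linear forms: the bound. -/

set_option autoImplicit false

namespace Pool.Agent.Y822.F

open Finset
open Pool.Agent.Y822

/-- bound for the correlations -/
noncomputable def KB (C0 K0 b y D N M : ℕ) : ℝ :=
  4 * EE y D ^ 2 * ((1 / 2) ^ b * N + (2 + Ad C0 K0 b y) * D ^ 2) +
  (4 ^ Nat.log y M + 3 * EE y D) ^ 2 *
    (Nat.log y M * ((N : ℝ) / y + 1) + 3 * (N : ℝ) / y + 2 * (D : ℝ) / y)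

/-- the elementary sum -/
noncomputable def II (y N : ℕ) (f f' : ℕ × ℕ) (a a' d d' : ℕ) : ℝ :=
  ∑ n ∈ Icc 1 N, (ro y (lf f n) * ro y (lf f' n)) * (cen d (n + a) * cen d' (n + a'))

lemma corr_expand {y D : ℕ} {c c' : ℕ → ℝ} (hc : Co y c) (hc' : Co y c') (N : ℕ) (f f' : ℕ × ℕ) (a a' : ℕ) :
    ∑ n ∈ Icc 1 N, GF y D c f a n * GF y D c' f' a' n =
      ∑ d ∈ SD y D, ∑ d' ∈ SD y D, c d * c' d' * II y N f f' a a' d d' := by
  have h : ∀ n ∈ Icc 1 N, GF y D c f a n * GF y D c' f' a' n =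
      ∑ d ∈ SD y D, ∑ d' ∈ SD y D, c d * c' d' *
        ((ro y (lf f n) * ro y (lf f' n)) * (cen d (n + a) * cen d' (n + a'))) := by
    intro n _
    unfold GF
    rw [sum_SD hc, sum_SD hc']
    calc _ = (ro y (lf f n) * ro y (lf f' n)) * ((∑ d ∈ SD y D, c d * cen d (n + a)) *
          ∑ d' ∈ SD y D, c' d' * cen d' (n + a')) := by ring
      _ = _ := by
        rw [sum_mul_sum, mul_sum]
        refine sum_congr rfl fun d _ => ?_
        rw [mul_sum]
        refine sum_congr rfl fun d' _ => ?_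
        ring
  rw [sum_congr rfl h, sum_comm]
  refine sum_congr rfl fun d _ => ?_
  rw [sum_comm]
  refine sum_congr rfl fun d' _ => ?_
  unfold II
  rw [mul_sum]

/-- off-diagonal coprime part -/
lemma II_coprime {C0 K0 b y : ℕ} (hcnt : ∀ (N : ℕ) (f f' : ℕ × ℕ), Prim f → Prim f' → ∀ a a' d d' : ℕ, 1 ≤ d → 1 ≤ d' →
    Ro y d → Ro y d' → Nat.Coprime d d' →
    |∑ n ∈ Icc 1 N, ro y (lf f n) * ro y (lf f' n) *
        ((if d ∣ n + a then 1 else 0) * (if d' ∣ n + a' then 1 else 0)) -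
      (N : ℝ) / (d * d') * Vy y f f'| ≤ (1 / 2) ^ b * ((N : ℝ) / (d * d')) + 2 + Ad C0 K0 b y)
    (N : ℕ) {f f' : ℕ × ℕ} (hf : Prim f) (hf' : Prim f') (a a' d d' : ℕ) (hd : 1 ≤ d) (hd' : 1 ≤ d') (hrd : Ro y d) (hrd' : Ro y d')
    (hcop : Nat.Coprime d d') :
    |II y N f f' a a' d d'| ≤ 4 * ((1 / 2) ^ b * ((N : ℝ) / (d * d')) + 2 + Ad C0 K0 b y) := by
  set A : ℕ → ℕ → ℝ := fun d d' => ∑ n ∈ Icc 1 N, ro y (lf f n) * ro y (lf f' n) *
        ((if d ∣ n + a then 1 else 0) * (if d' ∣ n + a' then 1 else 0)) with hA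
  have hI : II y N f f' a a' d d' = A d d' - A d 1 / d' - A 1 d' / d + A 1 1 / (d * d') := by
    unfold II
    rw [hA]
    simp only
    rw [sum_div, sum_div, sum_div, ← sum_sub_distrib, ← sum_sub_distrib, ← sum_add_distrib]
    refine sum_congr rfl fun n _ => ?_
    unfold cen
    simp only [one_dvd, if_true]
    have h1 : (d : ℝ) ≠ 0 := by positivity
    have h2 : (d' : ℝ) ≠ 0 := by positivity
    field_simp
    ring
  have h11 := hcnt N f f' hf hf' a a' 1 1 le_rfl le_rfl (Ro_one y) (Ro_one y) (Nat.coprime_one_right 1)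
  have hd1 := hcnt N f f' hf hf' a a' d 1 hd le_rfl hrd (Ro_one y) (Nat.coprime_one_right d)
  have h1d := hcnt N f f' hf hf' a a' 1 d' le_rfl hd' (Ro_one y) hrd' (Nat.coprime_one_left d')
  have hdd := hcnt N f f' hf hf' a a' d d' hd hd' hrd hrd' hcop
  have e11 : |A 1 1 - N * Vy y f f'| ≤ (1 / 2) ^ b * (N : ℝ) + 2 + Ad C0 K0 b y := by
    simpa [hA] using h11
  have ed1 : |A d 1 - N / d * Vy y f f'| ≤ (1 / 2) ^ b * ((N : ℝ) / d) + 2 + Ad C0 K0 b y := by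
    simpa [hA] using hd1
  have e1d : |A 1 d' - N / d' * Vy y f f'| ≤ (1 / 2) ^ b * ((N : ℝ) / d') + 2 + Ad C0 K0 b y := by
    simpa [hA] using h1d
  have edd : |A d d' - N / (d * d') * Vy y f f'| ≤
      (1 / 2) ^ b * ((N : ℝ) / (d * d')) + 2 + Ad C0 K0 b y := hdd
  have hdr : (1 : ℝ) ≤ d := by exact_mod_cast hd
  have hdr' : (1 : ℝ) ≤ d' := by exact_mod_cast hd'
  have hd0 : (0 : ℝ) < d := by linarith
  have hd0' : (0 : ℝ) < d' := by linarith
  have hAd := Ad_nonneg C0 K0 b y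
  have e : II y N f f' a a' d d' = (A d d' - N / (d * d') * Vy y f f') -
      (A d 1 - N / d * Vy y f f') / d' - (A 1 d' - N / d' * Vy y f f') / d +
      (A 1 1 - N * Vy y f f') / (d * d') := by
    rw [hI]
    field_simp
    ring
  have hdiv : ∀ (x B q t : ℝ), 1 ≤ q → |x| ≤ B + 2 + Ad C0 K0 b y → B / q = t →
      |x / q| ≤ t + 2 + Ad C0 K0 b y := by
    intro x B q t hq hx ht
    have hq0 : 0 < q := by linarith
    rw [abs_div, abs_of_pos hq0]
    calc |x| / q ≤ (B + 2 + Ad C0 K0 b y) / q := div_le_div_of_nonneg_right hx hq0.le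
      _ = B / q + (2 + Ad C0 K0 b y) / q := by ring
      _ ≤ t + (2 + Ad C0 K0 b y) := by
          rw [ht]
          have : (2 + Ad C0 K0 b y) / q ≤ 2 + Ad C0 K0 b y := div_le_self (by linarith) hq
          linarith
      _ = _ := by ring
  have f1 := hdiv _ _ (d' : ℝ) ((1 / 2) ^ b * ((N : ℝ) / (d * d'))) hdr' ed1 (by field_simp)
  have f2 := hdiv _ _ (d : ℝ) ((1 / 2) ^ b * ((N : ℝ) / (d * d'))) hdr e1d (by field_simp)
  have f3 := hdiv _ _ ((d : ℝ) * d') ((1 / 2) ^ b * ((N : ℝ) / (d * d'))) (by nlinarith) e11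
    (by field_simp)
  rw [e]
  set x0 := A d d' - N / (d * d') * Vy y f f'
  set x1 := (A d 1 - N / d * Vy y f f') / d'
  set x2 := (A 1 d' - N / d' * Vy y f f') / d
  set x3 := (A 1 1 - N * Vy y f f') / (d * d')
  rw [abs_le] at f1 f2 f3 edd ⊢
  constructor <;> linarith

/-- all pairs -/
lemma II_le {C0 K0 b y D : ℕ} (hcnt : ∀ (N : ℕ) (f f' : ℕ × ℕ), Prim f → Prim f' → ∀ a a' d d' : ℕ, 1 ≤ d → 1 ≤ d' →
    Ro y d → Ro y d' → Nat.Coprime d d' →
    |∑ n ∈ Icc 1 N, ro y (lf f n) * ro y (lf f' n) *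
        ((if d ∣ n + a then 1 else 0) * (if d' ∣ n + a' then 1 else 0)) -
      (N : ℝ) / (d * d') * Vy y f f'| ≤ (1 / 2) ^ b * ((N : ℝ) / (d * d')) + 2 + Ad C0 K0 b y)
    (N : ℕ) {f f' : ℕ × ℕ} (hf : Prim f) (hf' : Prim f') (a a' d d' : ℕ) (hd : d ∈ SD y D) (hd' : d' ∈ SD y D) :
    |II y N f f' a a' d d'| ≤ 4 * ((1 / 2) ^ b * ((N : ℝ) / (d * d')) + (2 + Ad C0 K0 b y)) +
      ∑ p ∈ PP y D, ∑ n ∈ Icc 1 N, (if p ∣ d then acen d (n + a) else 0) *
        (if p ∣ d' then acen d' (n + a') else 0) := by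
  have hnn : ∀ p n : ℕ, 0 ≤ (if p ∣ d then acen d (n + a) else 0) *
        (if p ∣ d' then acen d' (n + a') else 0) := by
    intro p n
    refine mul_nonneg ?_ ?_
    · split_ifs
      · exact acen_nonneg _ _
      · exact le_rfl
    · split_ifs
      · exact acen_nonneg _ _
      · exact le_rfl
  have hs := mem_SD.1 hd
  have hs' := mem_SD.1 hd'
  by_cases hcop : Nat.Coprime d d'
  · have h1 := II_coprime hcnt N hf hf' a a' d d' hs.1.1 hs'.1.1 hs.2.2 hs'.2.2 hcop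
    have h2 : 0 ≤ ∑ p ∈ PP y D, ∑ n ∈ Icc 1 N, (if p ∣ d then acen d (n + a) else 0) *
        (if p ∣ d' then acen d' (n + a') else 0) :=
      sum_nonneg fun p _ => sum_nonneg fun n _ => hnn p n
    linarith
  · obtain ⟨p, hp, hpd, hpd'⟩ := Nat.Prime.not_coprime_iff_dvd.1 hcop
    have hpP : p ∈ PP y D := pf_sub hd (Nat.mem_primeFactors.2 ⟨hp, hpd, by omega⟩)
    have h1 : |II y N f f' a a' d d'| ≤ ∑ n ∈ Icc 1 N, (if p ∣ d then acen d (n + a) else 0) *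
        (if p ∣ d' then acen d' (n + a') else 0) := by
      unfold II
      refine (abs_sum_le_sum_abs _ _).trans (sum_le_sum fun n _ => ?_)
      rw [if_pos hpd, if_pos hpd', abs_mul, abs_mul (cen d _)]
      have h3 : |ro y (lf f n) * ro y (lf f' n)| ≤ 1 := by
        rw [abs_mul, abs_of_nonneg (ro_nonneg _ _), abs_of_nonneg (ro_nonneg _ _)]
        calc ro y (lf f n) * ro y (lf f' n) ≤ 1 * 1 :=
              mul_le_mul (ro_le_one _ _) (ro_le_one _ _) (ro_nonneg _ _) zero_le_one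
          _ = 1 := one_mul 1
      have h4 : |cen d (n + a)| * |cen d' (n + a')| ≤ acen d (n + a) * acen d' (n + a') :=
        mul_le_mul (abs_cen_le _ _) (abs_cen_le _ _) (abs_nonneg _) (acen_nonneg _ _)
      calc _ ≤ 1 * (|cen d (n + a)| * |cen d' (n + a')|) :=
            mul_le_mul_of_nonneg_right h3 (mul_nonneg (abs_nonneg _) (abs_nonneg _))
        _ ≤ _ := by rw [one_mul]; exact h4
    have h2 : ∑ n ∈ Icc 1 N, (if p ∣ d then acen d (n + a) else 0) *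
        (if p ∣ d' then acen d' (n + a') else 0) ≤
        ∑ p ∈ PP y D, ∑ n ∈ Icc 1 N, (if p ∣ d then acen d (n + a) else 0) *
        (if p ∣ d' then acen d' (n + a') else 0) :=
      single_le_sum (f := fun p => ∑ n ∈ Icc 1 N, (if p ∣ d then acen d (n + a) else 0) *
        (if p ∣ d' then acen d' (n + a') else 0)) (fun p _ => sum_nonneg fun n _ => hnn p n) hpP
    have h5 : 0 ≤ 4 * ((1 / 2 : ℝ) ^ b * ((N : ℝ) / (d * d')) + (2 + Ad C0 K0 b y)) := by
      have := Ad_nonneg C0 K0 b y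
      positivity
    linarith

/-- the sum over a common prime -/
lemma Tp_corr {y D : ℕ} {c c' : ℕ → ℝ} (hc : Co y c) (hc' : Co y c') (hy : 2 ≤ y) {N a a' M Δ : ℕ}
    (ha : ∀ n ∈ Icc 1 N, Dm y D (n + a) M) (ha' : ∀ n ∈ Icc 1 N, Dm y D (n + a') M) {p : ℕ} (hp : p.Prime)
    (hyp : y < p) (hΔ : ∀ n : ℕ, p ∣ n + a → p ∣ n + a' → p ∣ Δ) :
    ∑ n ∈ Icc 1 N, Tp y D c p (n + a) * Tp y D c' p (n + a') ≤
      (4 ^ Nat.log y M + 3 * EE y D) ^ 2 *
        ((if p ∣ Δ then (N : ℝ) / y + 1 else 0) +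
          (3 * N * (1 / (p : ℝ) ^ 2) + 2 * (1 / (p : ℝ)))) := by
  classical
  set B := (4 : ℝ) ^ Nat.log y M + 3 * EE y D with hB
  have hB0 : 0 ≤ B := by have := (EE_pos y D).le; positivity
  have hp0 : (0 : ℝ) < p := by exact_mod_cast hp.pos
  have h1 : ∀ n ∈ Icc 1 N, Tp y D c p (n + a) * Tp y D c' p (n + a') ≤
      B ^ 2 * (acen p (n + a) * acen p (n + a')) := by
    intro n hn
    have e1 := Tp_le (D := D) hc hy hp (ha n hn)
    have e2 := Tp_le (D := D) hc' hy hp (ha' n hn)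
    calc _ ≤ (B * acen p (n + a)) * (B * acen p (n + a')) :=
          mul_le_mul e1 e2 (Tp_nonneg _ _) (mul_nonneg hB0 (acen_nonneg _ _))
      _ = _ := by ring
  refine (sum_le_sum h1).trans ?_
  rw [← mul_sum]
  refine mul_le_mul_of_nonneg_left ?_ (by positivity)
  have h2 : ∀ n ∈ Icc 1 N, acen p (n + a) * acen p (n + a') =
      (if p ∣ n + a then (1 : ℝ) else 0) * (if p ∣ n + a' then (1 : ℝ) else 0) +
      (1 / (p : ℝ)) * (if p ∣ n + a then (1 : ℝ) else 0) +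
      (1 / (p : ℝ)) * (if p ∣ n + a' then (1 : ℝ) else 0) + 1 / (p : ℝ) ^ 2 := by
    intro n _
    unfold acen
    field_simp
    ring
  rw [sum_congr rfl h2, sum_add_distrib, sum_add_distrib, sum_add_distrib, ← mul_sum, ← mul_sum,
    sum_const, Nat.card_Icc, nsmul_eq_mul]
  have h3 := card_mult_le N a p hp.one_lt.le
  have h4 := card_mult_le N a' p hp.one_lt.le
  have h5 : ∑ n ∈ Icc 1 N, (if p ∣ n + a then (1 : ℝ) else 0) * (if p ∣ n + a' then (1 : ℝ) else 0) ≤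
      (if p ∣ Δ then (N : ℝ) / y + 1 else 0) := by
    split_ifs with hdv
    · calc _ ≤ ∑ n ∈ Icc 1 N, (if p ∣ n + a then (1 : ℝ) else 0) := by
            refine sum_le_sum fun n _ => ?_
            split_ifs <;> norm_num
        _ ≤ N / p + 1 := h3
        _ ≤ N / y + 1 := by
            have : (N : ℝ) / p ≤ N / y := by
              apply div_le_div_of_nonneg_left (Nat.cast_nonneg _)
              · exact_mod_cast (by omega : 0 < y)
              · exact_mod_cast hyp.le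
            linarith
    · refine (sum_eq_zero fun n _ => ?_).le
      by_cases e1 : p ∣ n + a
      · by_cases e2 : p ∣ n + a'
        · exact absurd (hΔ n e1 e2) hdv
        · rw [if_neg e2, mul_zero]
      · rw [if_neg e1, zero_mul]
  have hip : 0 ≤ 1 / (p : ℝ) := by positivity
  have h6 := mul_le_mul_of_nonneg_left h3 hip
  have h7 := mul_le_mul_of_nonneg_left h4 hip
  have e3 : 1 / (p : ℝ) * (N / p + 1) = N * (1 / (p : ℝ) ^ 2) + 1 / p := by field_simp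
  rw [e3] at h6 h7
  have e4 : ((N + 1 - 1 : ℕ) : ℝ) = N := by simp
  rw [e4]
  linarith

/-- **the correlation bound** -/
theorem corr : ∃ C0 K0 : ℕ, 1 ≤ C0 ∧ 1 ≤ K0 ∧ ∀ b : ℕ, C0 ≤ b → ∀ y : ℕ, 2 ≤ y →
    ∀ (D N : ℕ) (c c' : ℕ → ℝ), Co y c → Co y c' → ∀ f f' : ℕ × ℕ, Prim f → Prim f' → ∀ a a' M Δ : ℕ,
    (∀ n ∈ Icc 1 N, Dm y D (n + a) M) → (∀ n ∈ Icc 1 N, Dm y D (n + a') M) → 1 ≤ Δ → Δ ≤ M →
    (∀ p : ℕ, p.Prime → p ≤ D → ∀ n : ℕ, p ∣ n + a → p ∣ n + a' → p ∣ Δ) →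
    |∑ n ∈ Icc 1 N, GF y D c f a n * GF y D c' f' a' n| ≤ KB C0 K0 b y D N M := by
  obtain ⟨C0, K0, hC0, hK0, hcnt⟩ := cnt
  refine ⟨C0, K0, hC0, hK0, ?_⟩
  intro b hb y hy D N c c' hc hc' f f' hf hf' a a' M Δ ha ha' hΔ1 hΔM hΔ
  have hcnt' := hcnt b hb y hy
  rw [corr_expand hc hc' N f f' a a']
  have hE := (EE_pos y D).le
  have hAd := Ad_nonneg C0 K0 b y
  have s1 : |∑ d ∈ SD y D, ∑ d' ∈ SD y D, c d * c' d' * II y N f f' a a' d d'| ≤
      ∑ d ∈ SD y D, ∑ d' ∈ SD y D, (4 * (1 / 2) ^ b * N * ((|c d| / d) * (|c' d'| / d')) +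
        4 * (2 + Ad C0 K0 b y) * (|c d| * |c' d'|) +
        ∑ p ∈ PP y D, ∑ n ∈ Icc 1 N, (|c d| * (if p ∣ d then acen d (n + a) else 0)) *
          (|c' d'| * (if p ∣ d' then acen d' (n + a') else 0))) := by
    refine (abs_sum_le_sum_abs _ _).trans (sum_le_sum fun d hd => ?_)
    refine (abs_sum_le_sum_abs _ _).trans (sum_le_sum fun d' hd' => ?_)
    rw [abs_mul, abs_mul]
    have h1 := II_le hcnt' N hf hf' a a' d d' hd hd'
    have h2 := mul_le_mul_of_nonneg_left h1 (mul_nonneg (abs_nonneg (c d)) (abs_nonneg (c' d')))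
    refine h2.trans (le_of_eq ?_)
    have hd1 : (d : ℝ) ≠ 0 := by have := (mem_SD.1 hd).1.1; positivity
    have hd1' : (d' : ℝ) ≠ 0 := by have := (mem_SD.1 hd').1.1; positivity
    rw [mul_add]
    congr 1
    · field_simp
    · rw [mul_sum]
      refine sum_congr rfl fun p _ => ?_
      rw [mul_sum]
      refine sum_congr rfl fun n _ => ?_
      ring
  refine s1.trans ?_
  have s2 : ∑ d ∈ SD y D, ∑ d' ∈ SD y D, (4 * (1 / 2) ^ b * N * ((|c d| / d) * (|c' d'| / d')) +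
        4 * (2 + Ad C0 K0 b y) * (|c d| * |c' d'|) +
        ∑ p ∈ PP y D, ∑ n ∈ Icc 1 N, (|c d| * (if p ∣ d then acen d (n + a) else 0)) *
          (|c' d'| * (if p ∣ d' then acen d' (n + a') else 0))) =
      4 * (1 / 2) ^ b * N * ((∑ d ∈ SD y D, |c d| / d) * (∑ d ∈ SD y D, |c' d| / d)) +
        4 * (2 + Ad C0 K0 b y) * ((∑ d ∈ SD y D, |c d|) * (∑ d ∈ SD y D, |c' d|)) +
        ∑ p ∈ PP y D, ∑ n ∈ Icc 1 N, Tp y D c p (n + a) * Tp y D c' p (n + a') := by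
    simp only [sum_add_distrib]
    congr 1
    · congr 1
      · rw [sum_mul_sum, mul_sum]
        refine sum_congr rfl fun d _ => ?_
        rw [mul_sum]
      · rw [sum_mul_sum, mul_sum]
        refine sum_congr rfl fun d _ => ?_
        rw [mul_sum]
    · rw [sum_congr rfl fun d _ => sum_comm, sum_comm]
      refine sum_congr rfl fun p _ => ?_
      rw [sum_congr rfl fun d _ => sum_comm, sum_comm]
      refine sum_congr rfl fun n _ => ?_
      unfold Tp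
      rw [sum_mul_sum]
  rw [s2]
  have hS1 : ∑ d ∈ SD y D, |c d| / d ≤ EE y D := sum_c_div hc
  have hS2 : ∑ d ∈ SD y D, |c d| ≤ D * EE y D := sum_c_abs hc
  have hS1' : ∑ d ∈ SD y D, |c' d| / d ≤ EE y D := sum_c_div hc'
  have hS2' : ∑ d ∈ SD y D, |c' d| ≤ D * EE y D := sum_c_abs hc'
  have hS10 : 0 ≤ ∑ d ∈ SD y D, |c' d| / (d : ℝ) := sum_nonneg fun d _ => by positivity
  have hS20 : 0 ≤ ∑ d ∈ SD y D, |c' d| := sum_nonneg fun d _ => abs_nonneg _
  have t1 : 4 * (1 / 2 : ℝ) ^ b * N * ((∑ d ∈ SD y D, |c d| / d) * (∑ d ∈ SD y D, |c' d| / d)) ≤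
      4 * (1 / 2 : ℝ) ^ b * N * EE y D ^ 2 := by
    rw [sq]
    exact mul_le_mul_of_nonneg_left (mul_le_mul hS1 hS1' hS10 hE) (by positivity)
  have t2 : 4 * (2 + Ad C0 K0 b y) * ((∑ d ∈ SD y D, |c d|) * (∑ d ∈ SD y D, |c' d|)) ≤
      4 * (2 + Ad C0 K0 b y) * (D * EE y D) ^ 2 := by
    rw [sq]
    exact mul_le_mul_of_nonneg_left (mul_le_mul hS2 hS2' hS20 (by positivity)) (by positivity)
  set B := (4 : ℝ) ^ Nat.log y M + 3 * EE y D with hB
  have hB0 : 0 ≤ B := by positivity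
  have t3 : ∑ p ∈ PP y D, ∑ n ∈ Icc 1 N, Tp y D c p (n + a) * Tp y D c' p (n + a') ≤
      B ^ 2 * (Nat.log y M * ((N : ℝ) / y + 1) + 3 * (N : ℝ) / y + 2 * (D : ℝ) / y) := by
    have h1 : ∀ p ∈ PP y D, ∑ n ∈ Icc 1 N, Tp y D c p (n + a) * Tp y D c' p (n + a') ≤
        B ^ 2 * ((if p ∣ Δ then (N : ℝ) / y + 1 else 0) +
          (3 * N * (1 / (p : ℝ) ^ 2) + 2 * (1 / (p : ℝ)))) := by
      intro p hp
      rw [mem_PP] at hp
      exact Tp_corr hc hc' hy ha ha' hp.2 hp.1.1 (hΔ p hp.2 hp.1.2)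
    refine (sum_le_sum h1).trans ?_
    rw [← mul_sum]
    refine mul_le_mul_of_nonneg_left ?_ (by positivity)
    rw [sum_add_distrib, sum_add_distrib, ← mul_sum, ← mul_sum]
    have u1 := sum_big_dvd y D Δ M hy hΔ1 hΔM (x := (N : ℝ) / y + 1) (by positivity)
    have u2 : ∑ p ∈ PP y D, 1 / (p : ℝ) ^ 2 ≤ 1 / (y : ℝ) :=
      inv_sq_gt (by omega) (PP y D) (fun p hp => (mem_PP.1 hp).1.1)
    have hy0 : (0 : ℝ) < y := by exact_mod_cast (by omega : 0 < y)
    have u3 : ∑ p ∈ PP y D, 1 / (p : ℝ) ≤ D / y := by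
      calc ∑ p ∈ PP y D, 1 / (p : ℝ) ≤ ∑ _p ∈ PP y D, 1 / (y : ℝ) := by
            refine sum_le_sum fun p hp => ?_
            have : (y : ℝ) < p := by exact_mod_cast (mem_PP.1 hp).1.1
            exact one_div_le_one_div_of_le hy0 this.le
        _ = (PP y D).card * (1 / (y : ℝ)) := by rw [sum_const, nsmul_eq_mul]
        _ ≤ D * (1 / (y : ℝ)) := by
            refine mul_le_mul_of_nonneg_right ?_ (by positivity)
            have : (PP y D).card ≤ D := by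
              unfold PP
              refine (card_filter_le _ _).trans ?_
              rw [Nat.card_Ioc]
              omega
            exact_mod_cast this
        _ = D / y := by ring
    have u4 : 3 * (N : ℝ) * ∑ p ∈ PP y D, 1 / (p : ℝ) ^ 2 ≤ 3 * N * (1 / y) :=
      mul_le_mul_of_nonneg_left u2 (by positivity)
    have u5 : 2 * ∑ p ∈ PP y D, 1 / (p : ℝ) ≤ 2 * (D / y) :=
      mul_le_mul_of_nonneg_left u3 (by norm_num)
    have e1 : 3 * (N : ℝ) * (1 / y) = 3 * N / y := by ring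
    have e2 : 2 * ((D : ℝ) / y) = 2 * D / y := by ring
    rw [e1] at u4
    rw [e2] at u5
    linarith
  unfold KB
  rw [← hB]
  have e3 : 4 * EE y D ^ 2 * ((1 / 2 : ℝ) ^ b * N + (2 + Ad C0 K0 b y) * D ^ 2) =
      4 * (1 / 2 : ℝ) ^ b * N * EE y D ^ 2 + 4 * (2 + Ad C0 K0 b y) * (D * EE y D) ^ 2 := by ring
  rw [e3]
  linarith

end Pool.Agent.Y822.F
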