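import Mathlib
import Pool.Agent.Y822.F.Dual
import Pool.Agent.Y822.Main0
import Pool.Agent.Y822.CTu

/-! The number of integers and of primes at which a system of linear forms is rough. -/

set_option autoImplicit false

namespace Pool.Agent.Y822.F

open Finset Filter
open Pool.Agent.Y822
open Pool.Agent.H373R2.T7 (pz Vz mem_pz rhoA PerA lam_fund local_low)
open Pool.Agent.W41 (JJ)

/-- forbidden classes of a system of forms -/
def QF (H : Finset (ℕ × ℕ)) (p n : ℕ) : Prop := ∃ a ∈ H, p ∣ lf a n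

open Classical in
/-- number of forbidden classes -/
noncomputable def nuF (H : Finset (ℕ × ℕ)) (p : ℕ) : ℕ := ((range p).filter (fun r => QF H p r)).card

open Classical in
/-- number of forbidden classes, the class of zero included -/
noncomputable def nuP (H : Finset (ℕ × ℕ)) (p : ℕ) : ℕ := ((range p).filter (fun r => p ∣ r ∨ QF H p r)).card

lemma QF_mod (H : Finset (ℕ × ℕ)) (p n : ℕ) : QF H p (n % p) ↔ QF H p n := by
  unfold QF
  constructor
  · rintro ⟨a, ha, h⟩; exact ⟨a, ha, (dvd_lf_mod a n p).1 h⟩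
  · rintro ⟨a, ha, h⟩; exact ⟨a, ha, (dvd_lf_mod a n p).2 h⟩

lemma nuF_le {H : Finset (ℕ × ℕ)} (hH : ∀ a ∈ H, Prim a) {p : ℕ} (hp : p.Prime) : nuF H p ≤ H.card := by
  classical
  unfold nuF
  have h1 : (range p).filter (fun r => QF H p r) ⊆ H.biUnion (fun a => (range p).filter (fun r => p ∣ lf a r)) := by
    intro r hr
    rw [mem_filter] at hr
    obtain ⟨a, ha, h⟩ := hr.2
    rw [mem_biUnion]
    exact ⟨a, ha, mem_filter.2 ⟨hr.1, h⟩⟩
  calc _ ≤ _ := card_le_card h1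
    _ ≤ ∑ a ∈ H, ((range p).filter (fun r => p ∣ lf a r)).card := card_biUnion_le
    _ ≤ ∑ _a ∈ H, 1 := sum_le_sum fun a ha => card_one_class (hH a ha) hp
    _ = H.card := by simp

lemma rho_le {H : Finset (ℕ × ℕ)} (hH : ∀ a ∈ H, Prim a) {p : ℕ} (hp : p.Prime) : rhoA (QF H) p ≤ H.card := by
  classical
  refine le_trans ?_ (nuF_le hH hp)
  unfold rhoA nuF
  apply card_le_card
  intro r hr
  rw [mem_filter] at hr ⊢
  exact ⟨hr.1, hr.2.2⟩

lemma rho_nuP (H : Finset (ℕ × ℕ)) {p : ℕ} (hp : p.Prime) : rhoA (QF H) p + 1 = nuP H p := by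
  classical
  unfold rhoA nuP
  have h1 : (range p).filter (fun r => p ∣ r ∨ QF H p r) =
      insert 0 ((range p).filter (fun r => ¬ p ∣ r ∧ QF H p r)) := by
    ext r
    rw [mem_insert, mem_filter, mem_filter, mem_range]
    constructor
    · rintro ⟨h2, h3⟩
      by_cases h0 : p ∣ r
      · left
        exact Nat.eq_zero_of_dvd_of_lt h0 h2
      · right
        refine ⟨h2, h0, ?_⟩
        rcases h3 with h3 | h3
        · exact absurd h3 h0
        · exact h3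
    · rintro (rfl | ⟨h2, h3, h4⟩)
      · exact ⟨hp.pos, Or.inl (dvd_zero p)⟩
      · exact ⟨h2, Or.inr h4⟩
  rw [h1, card_insert_of_notMem]
  rw [mem_filter]
  rintro ⟨_, h, _⟩
  exact h (dvd_zero p)

lemma ro_iffF (H : Finset (ℕ × ℕ)) (y n : ℕ) :
    (∀ a ∈ H, Ro y (lf a n)) ↔ ∀ p ∈ pz y, ¬ QF H p n := by
  constructor
  · rintro h p hp ⟨s, hs, hd⟩
    exact h s hs p (mem_pz.1 hp).2 (mem_pz.1 hp).1 hd
  · intro h s hs p hp hpy hd
    exact h p (mem_pz.2 ⟨hpy, hp⟩) ⟨s, hs, hd⟩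

/-- all the forms are rough -/
def BF (H : Finset (ℕ × ℕ)) (y n : ℕ) : Prop := ∀ p ∈ pz y, ¬ QF H p n

/-- the rough weight of a form -/
noncomputable def rf (y : ℕ) (a : ℕ × ℕ) (n : ℕ) : ℝ := ro y (lf a n)

lemma rf_bd (y : ℕ) (a : ℕ × ℕ) (n : ℕ) : 0 ≤ rf y a n ∧ rf y a n ≤ 1 := ⟨ro_nonneg _ _, ro_le_one _ _⟩

open Classical in
lemma prod_rf (H : Finset (ℕ × ℕ)) (y n : ℕ) : ∏ s ∈ H, rf y s n = if BF H y n then (1 : ℝ) else 0 := by
  by_cases h2 : BF H y n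
  · rw [if_pos h2]
    refine prod_eq_one fun s hs => ?_
    unfold rf ro
    rw [if_pos ((ro_iffF H y n).2 h2 s hs)]
  · rw [if_neg h2]
    have h3 : ¬ ∀ s ∈ H, Ro y (lf s n) := fun h => h2 ((ro_iffF H y n).1 h)
    push Not at h3
    obtain ⟨s, hs, hns⟩ := h3
    refine prod_eq_zero hs ?_
    unfold rf ro
    rw [if_neg hns]

open Classical in
lemma WH_rough1 (g : ℕ × ℕ → ℕ → ℝ) (H : Finset (ℕ × ℕ)) (y N : ℕ) :
    ∑ n ∈ Icc 1 N, WH (fun _ => (1 : ℝ)) g (rf y) H ∅ n = (((Icc 1 N).filter (fun n => BF H y n)).card : ℝ) := by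
  have h : ∀ n ∈ Icc 1 N, WH (fun _ => (1 : ℝ)) g (rf y) H ∅ n = if BF H y n then (1 : ℝ) else 0 := by
    intro n _
    unfold WH
    rw [prod_empty, one_mul, one_mul, sdiff_empty, prod_rf]
  rw [sum_congr rfl h, ← sum_filter, sum_const, nsmul_eq_mul, mul_one]

open Classical in
lemma WH_roughP (g : ℕ × ℕ → ℕ → ℝ) (H : Finset (ℕ × ℕ)) (y N : ℕ) :
    ∑ n ∈ Icc 1 N, WH eP g (rf y) H ∅ n = (((Icc 1 N).filter (fun n => n.Prime ∧ BF H y n)).card : ℝ) := by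
  have h : ∀ n ∈ Icc 1 N, WH eP g (rf y) H ∅ n = if (n.Prime ∧ BF H y n) then (1 : ℝ) else 0 := by
    intro n _
    unfold WH eP
    rw [prod_empty, one_mul, sdiff_empty, prod_rf]
    by_cases h1 : n.Prime <;> by_cases h2 : BF H y n <;> simp [h1, h2]
  rw [sum_congr rfl h, ← sum_filter, sum_const, nsmul_eq_mul, mul_one]

lemma Vz_nn (y : ℕ) : 0 ≤ Vz y := by
  unfold Vz
  refine prod_nonneg fun p hp => ?_
  have hp1 : (1 : ℝ) ≤ p := by exact_mod_cast (mem_pz.1 hp).2.one_lt.le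
  have : 1 / (p : ℝ) ≤ 1 := by rw [div_le_one (by linarith)]; exact hp1
  linarith

/-- the product of the local densities -/
lemma prod_low (m : ℕ) (hm : 1 ≤ m) : ∃ c : ℝ, 0 < c ∧ ∀ (ν : ℕ → ℕ) (y : ℕ), (∀ p, p.Prime → ν p ≤ m) →
    (∀ p, p.Prime → ν p < p) → c * Vz y ^ m ≤ ∏ p ∈ pz y, (1 - (ν p : ℝ) / p) := by
  refine ⟨(1 / (3 * m : ℝ)) ^ (3 * m) * Real.exp (-(2 * (m : ℝ) ^ 2)), by positivity, fun ν y h1 h2 => ?_⟩
  have h := local_low m hm ν y (fun p hp => h1 p (mem_pz.1 hp).2) (fun p hp => h2 p (mem_pz.1 hp).2)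
  have hV : 0 < Vz y := by
    unfold Vz
    refine prod_pos fun p hp => ?_
    have : (2 : ℝ) ≤ p := by exact_mod_cast (mem_pz.1 hp).2.two_le
    rw [sub_pos, div_lt_one (by linarith)]
    linarith
  have e : ∏ p ∈ pz y, (1 - (ν p : ℝ) / p) / (1 - 1 / (p : ℝ)) ^ m = (∏ p ∈ pz y, (1 - (ν p : ℝ) / p)) / Vz y ^ m := by
    unfold Vz
    rw [prod_div_distrib, prod_pow]
  rw [e, le_div_iff₀ (by positivity)] at h
  exact h

/-- **integers** -/
theorem base1 (k : ℕ) : ∃ c : ℝ, 0 < c ∧ ∀ (κ : ℝ), 0 < κ → κ ≤ 1 → ∀ U : ℕ, ∀ᶠ N : ℕ in atTop,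
    ∀ (g : ℕ × ℕ → ℕ → ℝ) (H : Finset (ℕ × ℕ)), H.card = k + 1 → (∀ a ∈ H, Prim a) →
      (∀ p, p.Prime → nuF H p < p) →
      c * (N / Real.log N ^ 0 * Vz (yN κ N) ^ (k + 1)) - N / Real.log N ^ U ≤
        ∑ n ∈ Icc 1 N, WH (fun _ => (1 : ℝ)) g (rf (yN κ N)) H ∅ n := by
  classical
  obtain ⟨c, hc, hlow⟩ := prod_low (k + 1) (by omega)
  obtain ⟨C0, K0, hC0, hK0, hfl⟩ := Pool.Agent.TH892.SW.fl_set (k + 1)
  refine ⟨c / 2, by positivity, fun κ hκ hκ1 U => ?_⟩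
  have e1 := ev_logN (ev_pow_exp U (1 / 2) (2 * K0) (by norm_num))
  filter_upwards [yN_facts κ hκ hκ1 3 (2 * (4 * C0 * C0 + 1)), e1, ev_logN (eventually_ge_atTop (1 : ℝ)),
    eventually_ge_atTop 3] with N hyf h1 hL hN g H hH hHp hadm
  obtain ⟨y1, y2, y3, y4, y5⟩ := hyf
  set y := yN κ N with hy
  set L := Real.log N with hLd
  have hL0 : 0 < L := by linarith
  have hN0 : (0 : ℝ) < N := by positivity
  rw [WH_rough1]
  have hcard : ∀ p : ℕ, ((range p).filter (fun a => QF H p a)).card = nuF H p := fun p => rfl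
  have key := hfl C0 le_rfl y (by omega) N (pz y) (QF H) (fun p hp => by
    refine ⟨(mem_pz.1 hp).2, (mem_pz.1 hp).1, ?_⟩
    rw [hcard, ← hH]
    exact nuF_le hHp (mem_pz.1 hp).2)
  have hfil : (Icc 1 N).filter (fun n => ∀ p ∈ pz y, ¬ QF H p (n % p)) =
      (Icc 1 N).filter (fun n => BF H y n) := by
    refine filter_congr fun n _ => ?_
    unfold BF
    constructor
    · intro h p hp hq
      exact h p hp ((QF_mod H p n).2 hq)
    · intro h p hp hq
      exact h p hp ((QF_mod H p n).1 hq)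
  rw [hfil] at key
  have hprod : c * Vz y ^ (k + 1) ≤ ∏ p ∈ pz y, (1 - (((range p).filter (fun a => QF H p a)).card : ℝ) / p) :=
    hlow (nuF H) y (fun p hp => hH ▸ nuF_le hHp hp) hadm
  set V := ∏ p ∈ pz y, (1 - (((range p).filter (fun a => QF H p a)).card : ℝ) / p) with hV
  have hV0 : 0 ≤ V := le_trans (mul_nonneg hc.le (pow_nonneg (Vz_nn y) _)) hprod
  have hhalf : (1 / 2 : ℝ) ^ C0 ≤ 1 / 2 := by
    calc (1 / 2 : ℝ) ^ C0 ≤ (1 / 2) ^ 1 := pow_le_pow_of_le_one (by norm_num) (by norm_num) hC0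
      _ = 1 / 2 := pow_one _
  have hNV : 0 ≤ (N : ℝ) * V := by positivity
  have herr : ((JJ y : ℝ) + 2) * ((y : ℝ) ^ (2 * (C0 * C0)) * (K0 * (y : ℝ) ^ (2 * (C0 * C0)))) ≤ N / L ^ U := by
    have g1 : ((JJ y : ℝ) + 2) ≤ 2 * y := by
      exact_mod_cast Pool.Agent.W41.JJ_small y (by omega)
    have g2 : (y : ℝ) ^ (2 * (C0 * C0)) * (K0 * (y : ℝ) ^ (2 * (C0 * C0))) = K0 * (y : ℝ) ^ (4 * C0 * C0) := by
      rw [show 4 * C0 * C0 = 2 * (C0 * C0) + 2 * (C0 * C0) by ring, pow_add]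
      ring
    rw [g2]
    have hyr : (0 : ℝ) ≤ y := Nat.cast_nonneg _
    have g3 : ((y : ℝ) ^ (4 * C0 * C0 + 1)) ^ 2 ≤ N := by
      rw [← pow_mul, mul_comm]
      exact_mod_cast y4
    have g4 : (y : ℝ) ^ (4 * C0 * C0 + 1) ≤ Real.exp (L / 2) := by
      have h5 : (N : ℝ) = Real.exp (L / 2) ^ 2 := by
        rw [sq, ← Real.exp_add, add_halves, hLd, Real.exp_log hN0]
      rw [h5] at g3
      exact (pow_le_pow_iff_left₀ (by positivity) (Real.exp_pos _).le (by norm_num)).1 g3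
    rw [le_div_iff₀ (by positivity)]
    calc ((JJ y : ℝ) + 2) * (K0 * (y : ℝ) ^ (4 * C0 * C0)) * L ^ U
        ≤ 2 * y * (K0 * (y : ℝ) ^ (4 * C0 * C0)) * L ^ U := by gcongr
      _ = (y : ℝ) ^ (4 * C0 * C0 + 1) * (2 * K0 * L ^ U) := by rw [pow_succ]; ring
      _ ≤ Real.exp (L / 2) * Real.exp (1 / 2 * L) := by
          apply mul_le_mul g4 h1 (by positivity) (Real.exp_pos _).le
      _ = N := by
          rw [← Real.exp_add]
          have : L / 2 + 1 / 2 * L = L := by ring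
          rw [this, hLd, Real.exp_log hN0]
  have hk := (abs_le.1 key).1
  have h2 : (1 / 2 : ℝ) ^ C0 * (N * V) ≤ 1 / 2 * (N * V) := mul_le_mul_of_nonneg_right hhalf hNV
  have h3 : (N : ℝ) * (c * Vz y ^ (k + 1)) ≤ N * V := mul_le_mul_of_nonneg_left hprod hN0.le
  rw [pow_zero, div_one]
  linarith

/-- **primes** -/
theorem baseP (k : ℕ) : ∃ c : ℝ, 0 < c ∧ ∀ (κ : ℝ), 0 < κ → κ ≤ 1 → ∀ U : ℕ, ∀ᶠ N : ℕ in atTop,
    ∀ (g : ℕ × ℕ → ℕ → ℝ) (H : Finset (ℕ × ℕ)), H.card = k + 1 → (∀ a ∈ H, Prim a) →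
      (∀ p, p.Prime → nuP H p < p) →
      c * (N / Real.log N ^ 1 * Vz (yN κ N) ^ (k + 1)) - N / Real.log N ^ U ≤
        ∑ n ∈ Icc 1 N, WH eP g (rf (yN κ N)) H ∅ n := by
  classical
  obtain ⟨c, hc, hlow⟩ := prod_low (k + 2) (by omega)
  obtain ⟨K, hK, hfund⟩ := lam_fund (k + 1) (by omega) (1 / 2) (by norm_num)
  refine ⟨c / 2, by positivity, fun κ hκ hκ1 U => ?_⟩
  obtain ⟨x0, hx0⟩ := hfund (U + 1)
  have e3 := ev_logN (ev_pow_exp (U + 1) (1 / 2) 4 (by norm_num))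
  filter_upwards [yN_facts κ hκ hκ1 x0 K, e3, ev_logN (eventually_ge_atTop (2 : ℝ)),
    eventually_ge_atTop 3] with N hyf h3 hL hN g H hH hHp hadm
  obtain ⟨y1, y2, y3, y4, y5⟩ := hyf
  set y := yN κ N with hy
  set L := Real.log N with hLd
  have hL0 : 0 < L := by linarith
  have hN0 : (0 : ℝ) < N := by positivity
  rw [WH_roughP]
  have hper : PerA (QF H) (k + 1) := ⟨fun p n => (QF_mod H p n).symm, fun p hp => hH ▸ rho_le hHp hp⟩
  have hmain := hx0 N y y5 y4 (QF H) hper N le_rfl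
  -- the product
  have hprod : c * Vz y ^ (k + 1) ≤ ∏ p ∈ pz y, (1 - (rhoA (QF H) p : ℝ) / (p - 1 : ℝ)) := by
    have h1 := hlow (nuP H) y (fun p hp => by
      rw [← rho_nuP H hp]
      have := rho_le hHp hp
      omega) hadm
    have hV : 0 < Vz y := by
      unfold Vz
      refine prod_pos fun p hp => ?_
      have : (2 : ℝ) ≤ p := by exact_mod_cast (mem_pz.1 hp).2.two_le
      rw [sub_pos, div_lt_one (by linarith)]
      linarith
    have e : ∏ p ∈ pz y, (1 - (nuP H p : ℝ) / p) =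
        (∏ p ∈ pz y, (1 - (rhoA (QF H) p : ℝ) / (p - 1 : ℝ))) * Vz y := by
      unfold Vz
      rw [← prod_mul_distrib]
      refine prod_congr rfl fun p hp => ?_
      have hpp := (mem_pz.1 hp).2
      have h2 : (nuP H p : ℝ) = (rhoA (QF H) p : ℝ) + 1 := by
        rw [← rho_nuP H hpp]; push_cast; ring
      have hp2 : (2 : ℝ) ≤ p := by exact_mod_cast hpp.two_le
      have hp0 : (p : ℝ) ≠ 0 := by positivity
      have hp1 : (p : ℝ) - 1 ≠ 0 := by
        have : 0 < (p : ℝ) - 1 := by linarith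
        exact this.ne'
      rw [h2]
      field_simp
      ring
    rw [e, show k + 2 = (k + 1) + 1 by ring, pow_succ, ← mul_assoc] at h1
    exact le_of_mul_le_mul_right h1 hV
  set P := ∏ p ∈ pz y, (1 - (rhoA (QF H) p : ℝ) / (p - 1 : ℝ)) with hP
  have hP0 : 0 ≤ P := le_trans (mul_nonneg hc.le (pow_nonneg (Vz_nn y) _)) hprod
  obtain ⟨S, hS⟩ : ∃ S, S = ∑ n ∈ (Icc 1 N).filter (BF H y),
    ArithmeticFunction.vonMangoldt n := ⟨_, rfl⟩
  obtain ⟨C, hC⟩ : ∃ C, C = (((Icc 1 N).filter (fun n => n.Prime ∧ BF H y n)).card : ℝ) := ⟨_, rfl⟩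
  have hmain' : |S - N * P| ≤ 1 / 2 * (N * P) + N / L ^ (U + 1) := by
    rw [hS]
    refine le_trans (le_of_eq ?_) hmain
    congr 2
    refine sum_congr ?_ fun _ _ => rfl
    ext n
    rw [mem_filter, mem_filter]
    exact Iff.rfl
  have hlow' : S - 2 * Real.sqrt N * L ≤ L * C := by
    rw [hS, hC]
    exact count_low (BF H y) N (by omega)
  have hm := (abs_le.1 hmain').1
  have hsq : 2 * Real.sqrt N * L ≤ N / L ^ (U + 1) * (L / 2) := by
    have h5 : Real.sqrt N = Real.exp (L / 2) := by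
      have hNe : (N : ℝ) = Real.exp L := by rw [hLd, Real.exp_log hN0]
      rw [hNe, Real.exp_half]
    have h6 : (N : ℝ) = Real.exp (L / 2) * Real.exp (L / 2) := by
      rw [← Real.exp_add, add_halves, hLd, Real.exp_log hN0]
    rw [h5, div_mul_eq_mul_div, le_div_iff₀ (by positivity)]
    have h7 : 4 * L ^ (U + 1) ≤ Real.exp (L / 2) := by
      have : (1 : ℝ) / 2 * L = L / 2 := by ring
      rw [← this]; exact h3
    calc 2 * Real.exp (L / 2) * L * L ^ (U + 1) = Real.exp (L / 2) * (4 * L ^ (U + 1)) * (L / 2) := by ring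
      _ ≤ Real.exp (L / 2) * Real.exp (L / 2) * (L / 2) := by gcongr
      _ = N * (L / 2) := by rw [← h6]
  have hLU : N / L ^ (U + 1) ≤ N / L ^ (U + 1) * (L / 2) :=
    le_mul_of_one_le_right (by positivity) (by linarith)
  have e9 : N / L ^ (U + 1) * (L / 2) = N / L ^ U / 2 := by
    rw [pow_succ]
    field_simp
  have h10 : 1 / 2 * (N * P) - N / L ^ U ≤ L * C := by linarith
  rw [← hC]
  have h11 : (N : ℝ) * (c * Vz y ^ (k + 1)) ≤ N * P := mul_le_mul_of_nonneg_left hprod hN0.le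
  have h12 : L * (c / 2 * (N / L ^ 1 * Vz y ^ (k + 1)) - N / L ^ U) ≤ L * C := by
    have e : L * (c / 2 * (N / L ^ 1 * Vz y ^ (k + 1)) - N / L ^ U) =
        1 / 2 * (N * (c * Vz y ^ (k + 1))) - L * (N / L ^ U) := by
      rw [pow_one]
      field_simp
    rw [e]
    have h13 : N / L ^ U ≤ L * (N / L ^ U) := le_mul_of_one_le_left (by positivity) (by linarith)
    linarith
  exact le_of_mul_le_mul_left h12 hL0

end Pool.Agent.Y822.F
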