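import Mathlib
import Pool.Agent.Y822.Lin
import Pool.Agent.Y822.F.Inn

/-! The linear sieve lower bound with level `w + 1/4 < 1/2` and sifting limit `N ^ w`, `w < 1/4`. -/

set_option autoImplicit false

namespace Pool.Agent.Y822.F

open Finset
open Pool.Agent.W23
open Pool.Agent.W23.DC (tt pr LL MM Siz Mer SF mem_pr siz ind mem_EE)
open Pool.Agent.Y822.Lin (mer_of inv_mul LL_smul)

/-- the moduli of the error term -/
noncomputable def FU (N : ℕ) (ε₁ w : ℝ) : Finset ℕ := DC.EE (pr N ε₁ w) (tt N) (w + 1 / 4) w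

open Classical in
/-- no prime factor between `N ^ ε₁` and `N ^ w` -/
noncomputable def iu (N : ℕ) (ε₁ w : ℝ) (m : ℕ) : ℝ := if ∀ p ∈ pr N ε₁ w, ¬ p ∣ m then 1 else 0

lemma sz_eq {N e : ℕ} (he : Squarefree e) : DC.sz (tt N) e = Real.log e / Real.log N := by
  unfold DC.sz tt
  rw [← sum_div]
  congr 1
  conv_rhs => rw [← Nat.prod_primeFactors_of_squarefree he]
  push_cast
  rw [Real.log_prod]
  intro p hp
  exact_mod_cast (Nat.prime_of_mem_primeFactors hp).ne_zero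

lemma FU_facts {N : ℕ} {ε₁ w : ℝ} (hN : 2 ≤ N) (hw : 0 ≤ w + 1 / 4) {d : ℕ} (hd : d ∈ FU N ε₁ w) :
    1 ≤ d ∧ Squarefree d ∧ (d : ℝ) ≤ (N : ℝ) ^ (w + 1 / 4) ∧ ∀ p ∈ d.primeFactors, ε₁ ≤ tt N p := by
  obtain ⟨h1, h2, h3, h4⟩ := mem_EE hd
  have hd1 : 1 ≤ d := by omega
  refine ⟨hd1, h2, ?_, fun p hp => (h3 p hp).1⟩
  have hL : 0 < Real.log N := Real.log_pos (by exact_mod_cast (by omega : 1 < N))
  have hN0 : (0 : ℝ) < N := by exact_mod_cast (by omega : 0 < N)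
  obtain ⟨u, v, huv, hu, hv⟩ := h4 (w + 1 / 4) 0 hw le_rfl (by ring)
  have hv1 : v = 1 := by
    by_contra hne
    obtain ⟨q, hq, hqv⟩ := Nat.exists_prime_and_dvd hne
    have hv0 : v ≠ 0 := by
      rintro rfl
      omega
    have h5 : 0 < DC.sz (tt N) v := by
      unfold DC.sz
      refine sum_pos (fun p hp => ?_) ⟨q, Nat.mem_primeFactors.2 ⟨hq, hqv, hv0⟩⟩
      exact div_pos (Real.log_pos (by exact_mod_cast (Nat.prime_of_mem_primeFactors hp).one_lt)) hL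
    linarith
  rw [hv1, mul_one] at huv
  rw [huv, sz_eq h2, div_le_iff₀ hL, ← Real.log_rpow hN0] at hu
  exact (Real.log_le_log_iff (by exact_mod_cast hd1) (by positivity)).1 hu

section
variable {N : ℕ} {ε₁ w : ℝ}

/-- the recursion for a weighted set -/
theorem LL_eq (hN : 2 ≤ N) (Ω : Finset ℕ) (v : ℕ → ℝ) (m : ℕ → ℕ) (X : ℝ) (K : ℕ) (b : Bool) (τ ζ : ℝ) (d : ℕ)
    (hd : ∀ p ∈ pr N ε₁ w, tt N p < ζ → ¬ p ∣ d) :
    ∑ n ∈ Ω, v n * LL (pr N ε₁ w) (tt N) (ind (m n)) K b τ ζ d =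
      X * (1 / (d : ℝ) * MM (pr N ε₁ w) (tt N) (fun p => 1 / (p : ℝ)) K b τ ζ) +
      LL (pr N ε₁ w) (tt N) (fun e => (∑ n ∈ Ω, v n * ind (m n) e) - X * (1 / (e : ℝ))) K b τ ζ d := by
  have h0 : ∑ n ∈ Ω, v n * LL (pr N ε₁ w) (tt N) (ind (m n)) K b τ ζ d =
      LL (pr N ε₁ w) (tt N) (fun e => ∑ n ∈ Ω, v n * ind (m n) e) K b τ ζ d := by
    rw [Pool.Agent.W120.DC.LN.1 (pr N ε₁ w) (tt N) Ω (fun n e => v n * ind (m n) e) K b τ ζ d]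
    exact sum_congr rfl fun n _ => (LL_smul _ _ _ _ _ _ _ _ _).symm
  have h1 : (fun e => ∑ n ∈ Ω, v n * ind (m n) e) =
      (fun e => X * (fun e : ℕ => 1 / (e : ℝ)) e +
        (fun e => (∑ n ∈ Ω, v n * ind (m n) e) - X * (1 / (e : ℝ))) e) := by
    funext e
    simp only
    ring
  rw [h0, h1, Pool.Agent.W120.DC.LN.2.1 (pr N ε₁ w) (tt N) X (fun e : ℕ => 1 / (e : ℝ))
    (fun e => (∑ n ∈ Ω, v n * ind (m n) e) - X * (1 / (e : ℝ))) K b τ ζ d,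
    Pool.Agent.W120.DC.LN.2.2 (pr N ε₁ w) (tt N) (siz hN _ _) (fun p => 1 / (p : ℝ))
      (fun e : ℕ => 1 / (e : ℝ)) (inv_mul _ (siz hN _ _).pr) K b τ ζ d hd]

end

/-- **the linear sieve** -/
theorem lowU (w : ℝ) (hw12 : 1 / 12 ≤ w) (hw4 : w < 1 / 4) : ∃ c₀ : ℝ, 0 < c₀ ∧ ∀ ε₁ : ℝ, 0 < ε₁ → ε₁ ≤ 1 / 25 →
      ∃ N₀ : ℕ, ∀ N : ℕ, N₀ ≤ N →
      ∀ (Ω : Finset ℕ) (v : ℕ → ℝ) (m : ℕ → ℕ) (X : ℝ), (∀ n ∈ Ω, 0 ≤ v n) → 0 ≤ X →
      c₀ * ε₁ * X - ∑ d ∈ FU N ε₁ w, |(∑ n ∈ Ω, v n * ind (m n) d) - X * (1 / (d : ℝ))| ≤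
        ∑ n ∈ Ω, v n * iu N ε₁ w (m n) := by
  classical
  obtain ⟨A0, F, f, hS⟩ := Pool.Agent.W366.DC.SFX
  have hA0 := hS.pos
  obtain ⟨τ, hτ⟩ : ∃ τ : ℝ, τ = w + 1 / 4 := ⟨_, rfl⟩
  have hw0 : 0 < w := by linarith
  have hτ0 : 0 < τ := by linarith
  have hs2 : 2 < τ / w := by rw [lt_div_iff₀ hw0]; linarith
  have hs4 : τ / w ≤ 4 := by rw [div_le_iff₀ hw0]; linarith
  obtain ⟨Z, hZ⟩ : ∃ Z : ℝ, Z = A0 * Real.log (τ / w - 1) / τ := ⟨_, rfl⟩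
  have hZ0 : 0 < Z := by
    rw [hZ]
    have : 0 < Real.log (τ / w - 1) := Real.log_pos (by linarith)
    positivity
  refine ⟨Z / 2, by positivity, ?_⟩
  intro ε₁ hε hε2
  obtain ⟨η, hη0, HM⟩ := Pool.Agent.W505.DC.MT Pool.Agent.W505.DC.MI A0 F f hS ε₁ (ε₁ * Z / 2) ⌈1 / ε₁⌉₊ hε (by linarith)
    (by positivity)
  obtain ⟨N₁, hN₁⟩ := mer_of ε₁ w η hε (by linarith) hη0
  refine ⟨max N₁ 2, ?_⟩
  intro N hN Ω v m X hv hX
  have hNN₁ : N₁ ≤ N := (le_max_left _ _).trans hN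
  have hN2 : 2 ≤ N := (le_max_right _ _).trans hN
  set P := pr N ε₁ w with hP
  set g : ℕ → ℝ := fun p => 1 / (p : ℝ) with hg
  set K := ⌈1 / ε₁⌉₊ with hK
  set r : ℕ → ℝ := fun e => (∑ n ∈ Ω, v n * ind (m n) e) - X * (1 / (e : ℝ)) with hr
  have hKε : 1 ≤ (K + 2) * ε₁ := by
    have h1 : 1 / ε₁ ≤ K := Nat.le_ceil _
    have h2 : 1 / ε₁ * ε₁ = 1 := by field_simp
    nlinarith
  have hg0 : ∀ p ∈ P, 0 ≤ g p := fun p _ => by rw [hg]; positivity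
  have HM' := HM P (tt N) g w (by linarith) hg0 (fun p hp => (mem_pr.1 hp).2.2.1)
    (hN₁ N hNN₁) K le_rfl
  have hmain : ε₁ * Z / 2 ≤ MM P (tt N) g K false τ w := by
    have h1 := (HM' τ w (by linarith) (by linarith) le_rfl (by linarith) (by linarith)).2 (by linarith)
    have h2 : ε₁ / w * f (τ / w) = ε₁ * Z := by
      rw [hS.f4 _ hs2.le hs4, hZ]
      field_simp
    rw [h2] at h1
    linarith
  have e1 := LL_eq hN2 (ε₁ := ε₁) (w := w) Ω v m X K false τ w 1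
    (fun p hp _ h => (mem_pr.1 hp).2.1.one_lt.ne' (Nat.dvd_one.1 h))
  have hpt : ∀ n ∈ Ω, v n * LL P (tt N) (ind (m n)) K false τ w 1 ≤ v n * iu N ε₁ w (m n) := by
    intro n hn
    refine mul_le_mul_of_nonneg_left ?_ (hv n hn)
    have h1 := (Pool.Agent.W52.DC.PT P (tt N) (siz hN2 _ _) (m n) K τ w 1
      (fun p hp _ h => (mem_pr.1 hp).2.1.one_lt.ne' (Nat.dvd_one.1 h))).2
    refine h1.trans ?_
    unfold iu
    by_cases h7 : ∀ p ∈ pr N ε₁ w, ¬ p ∣ m n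
    · rw [if_pos h7]
      split_ifs <;> norm_num
    · rw [if_neg h7, if_neg]
      rintro ⟨-, h8⟩
      exact h7 (fun p hp => h8 p hp (mem_pr.1 hp).2.2.2)
  have hsum := sum_le_sum hpt
  rw [e1] at hsum
  have hE : |LL P (tt N) r K false τ w 1| ≤ ∑ d ∈ FU N ε₁ w, |r d| := by
    have h1 := Pool.Agent.W586.DC.ER P (tt N) (siz hN2 _ _) r K false τ w 1 hτ0.le
      (fun _ => by linarith)
    simp only [one_mul] at h1
    unfold FU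
    rw [← hτ]
    exact h1
  have hE' := (abs_le.1 hE).1
  have h3 : X * (ε₁ * Z / 2) ≤ X * (1 / ((1 : ℕ) : ℝ) * MM P (tt N) g K false τ w) := by
    apply mul_le_mul_of_nonneg_left _ hX
    norm_num
    linarith
  have h4 : Z / 2 * ε₁ * X = X * (ε₁ * Z / 2) := by ring
  rw [h4]
  linarith

end Pool.Agent.Y822.F
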