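import Mathlib
import Pool.Agent.Y822.F.Lin
import Pool.Agent.Y822.Stp

/-! The error terms of the sieve in terms of the discrepancy. -/

set_option autoImplicit false

namespace Pool.Agent.Y822.F

open Finset
open Pool.Agent.W23
open Pool.Agent.W23.DC (tt pr mem_pr ind)
open Pool.Agent.Y822
open Pool.Agent.Y822.Stp (Pin mem_Pin)

lemma pf_mul_prod {d : ℕ} (hd : d ≠ 0) {T : Finset ℕ} (hT : ∀ p ∈ T, p.Prime) :
    (d * ∏ p ∈ T, p).primeFactors = d.primeFactors ∪ T := by
  rw [Nat.primeFactors_mul hd (prod_ne_zero_iff.2 fun p hp => (hT p hp).ne_zero), Nat.primeFactors_prod hT]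

theorem err_le {N y : ℕ} {ε₁ w δ' : ℝ} (hN : 2 ≤ N) (hw : 0 ≤ w) (hy : (y : ℝ) < (N : ℝ) ^ ε₁)
    (f : ℕ → ℝ) (a : ℕ × ℕ) (t : ℕ) :
    ∑ d ∈ FU N ε₁ w, ∑ T ∈ (Pin N y ε₁).powerset.filter
      (fun T : Finset ℕ => ((∏ p ∈ T, p : ℕ) : ℝ) ≤ (N : ℝ) ^ δ'), |rr y N f a t (d * ∏ p ∈ T, p)| ≤
      LD y ⌊(N : ℝ) ^ (w + 1 / 4 + δ')⌋₊ N f a t := by
  classical
  set Q := (Pin N y ε₁).powerset.filter (fun T : Finset ℕ => ((∏ p ∈ T, p : ℕ) : ℝ) ≤ (N : ℝ) ^ δ') with hQ
  have hN0 : (0 : ℝ) < N := by exact_mod_cast (by omega : 0 < N)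
  have hQp : ∀ T ∈ Q, ∀ p ∈ T, p.Prime ∧ y < p ∧ tt N p < ε₁ := by
    intro T hT p hp
    rw [hQ, mem_filter, mem_powerset] at hT
    have h1 := mem_Pin.1 (hT.1 hp)
    exact ⟨h1.2.1, h1.1.1, h1.2.2⟩
  have hpf : ∀ d ∈ FU N ε₁ w, ∀ T ∈ Q, (d * ∏ p ∈ T, p).primeFactors = d.primeFactors ∪ T := by
    intro d hd T hT
    have h1 := (FU_facts hN (by linarith) hd).1
    exact pf_mul_prod (by omega) fun p hp => (hQp T hT p hp).1
  rw [Finset.sum_sigma' (f := fun d T => |rr y N f a t (d * ∏ p ∈ T, p)|)]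
  have hinj : Set.InjOn (fun x : (_ : ℕ) × Finset ℕ => x.1 * ∏ p ∈ x.2, p)
      ((FU N ε₁ w).sigma (fun _ => Q) : Finset ((_ : ℕ) × Finset ℕ)) := by
    rintro ⟨d, T⟩ hdT ⟨d', T'⟩ hdT' heq
    rw [mem_coe, mem_sigma] at hdT hdT'
    simp only at hdT hdT' heq
    have h1 := hpf d hdT.1 T hdT.2
    have h2 := hpf d' hdT'.1 T' hdT'.2
    rw [heq, h2] at h1
    obtain ⟨_, g2, _, g4⟩ := FU_facts hN (by linarith) hdT.1
    obtain ⟨_, g2', _, g4'⟩ := FU_facts hN (by linarith) hdT'.1
    have hTT : T = T' := by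
      ext p
      constructor
      · intro hp
        have h3 : p ∈ d'.primeFactors ∪ T' := by rw [h1]; exact mem_union_right _ hp
        rcases mem_union.1 h3 with h | h
        · have := g4' p h
          have := (hQp T hdT.2 p hp).2.2
          linarith
        · exact h
      · intro hp
        have h3 : p ∈ d.primeFactors ∪ T := by rw [← h1]; exact mem_union_right _ hp
        rcases mem_union.1 h3 with h | h
        · have := g4 p h
          have := (hQp T' hdT'.2 p hp).2.2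
          linarith
        · exact h
    have hdd : d.primeFactors = d'.primeFactors := by
      ext p
      constructor
      · intro hp
        have h3 : p ∈ d'.primeFactors ∪ T' := by rw [h1]; exact mem_union_left _ hp
        rcases mem_union.1 h3 with h | h
        · exact h
        · have := g4 p hp
          have := (hQp T' hdT'.2 p h).2.2
          linarith
      · intro hp
        have h3 : p ∈ d.primeFactors ∪ T := by rw [← h1]; exact mem_union_left _ hp
        rcases mem_union.1 h3 with h | h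
        · exact h
        · have := g4' p hp
          have := (hQp T hdT.2 p h).2.2
          linarith
    have : d = d' := by
      rw [← Nat.prod_primeFactors_of_squarefree g2, ← Nat.prod_primeFactors_of_squarefree g2', hdd]
    rw [this, hTT]
  have hmem : ∀ x ∈ (FU N ε₁ w).sigma (fun _ => Q),
      x.1 * ∏ p ∈ x.2, p ∈ SD y ⌊(N : ℝ) ^ (w + 1 / 4 + δ')⌋₊ := by
    rintro ⟨d, T⟩ hx
    rw [mem_sigma] at hx
    simp only at hx ⊢
    obtain ⟨g1, g2, g3, g4⟩ := FU_facts hN (by linarith) hx.1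
    have hT0 : 0 < ∏ p ∈ T, p := prod_pos fun p hp => (hQp T hx.2 p hp).1.pos
    rw [mem_SD]
    refine ⟨⟨Nat.mul_pos g1 hT0, ?_⟩, ?_, ?_⟩
    · apply Nat.le_floor
      push_cast
      rw [Real.rpow_add hN0]
      have h1 : ((∏ p ∈ T, p : ℕ) : ℝ) ≤ (N : ℝ) ^ δ' := by
        have := hx.2
        rw [hQ, mem_filter] at this
        exact this.2
      push_cast at h1
      exact mul_le_mul g3 h1 (by positivity) (by positivity)
    · have hcop : Nat.Coprime d (∏ p ∈ T, p) := by
        refine Nat.Coprime.prod_right fun p hp => ?_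
        refine ((hQp T hx.2 p hp).1.coprime_iff_not_dvd.2 ?_).symm
        intro h
        have h1 := g4 p (Nat.mem_primeFactors.2 ⟨(hQp T hx.2 p hp).1, h, by omega⟩)
        have h2 := (hQp T hx.2 p hp).2.2
        linarith
      refine (Nat.squarefree_mul hcop).2 ⟨g2, ?_⟩
      exact Finset.squarefree_prod_of_pairwise_isCoprime (fun p hp q hq hpq => by
        exact Nat.coprime_iff_isRelPrime.1 ((Nat.coprime_primes (hQp T hx.2 p hp).1 (hQp T hx.2 q hq).1).2 hpq))
        (fun p hp => (hQp T hx.2 p hp).1.prime.squarefree)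
    · intro p hp hpy hpd
      have h1 : p ∈ (d * ∏ p ∈ T, p).primeFactors :=
        Nat.mem_primeFactors.2 ⟨hp, hpd, (Nat.mul_pos g1 hT0).ne'⟩
      rw [hpf d hx.1 T hx.2, mem_union] at h1
      rcases h1 with h1 | h1
      · have h2 := (DC.le_tt_iff hN hp.pos ε₁).1 (g4 p h1)
        have h3 : (y : ℝ) < p := lt_of_lt_of_le hy h2
        have h4 : y < p := by exact_mod_cast h3
        omega
      · have := (hQp T hx.2 p h1).2.1
        omega
  calc ∑ x ∈ (FU N ε₁ w).sigma (fun _ => Q), |rr y N f a t (x.1 * ∏ p ∈ x.2, p)|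
      = ∑ e ∈ ((FU N ε₁ w).sigma (fun _ => Q)).image (fun x => x.1 * ∏ p ∈ x.2, p), |rr y N f a t e| := by
        rw [Finset.sum_image hinj]
    _ ≤ ∑ e ∈ SD y ⌊(N : ℝ) ^ (w + 1 / 4 + δ')⌋₊, |rr y N f a t e| := by
        apply sum_le_sum_of_subset_of_nonneg
        · intro e he
          rw [mem_image] at he
          obtain ⟨x, hx, rfl⟩ := he
          exact hmem x hx
        · intro _ _ _
          exact abs_nonneg _
    _ ≤ _ := by
        unfold LD
        refine sum_le_sum fun e _ => ?_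
        exact le_mul_of_one_le_left (abs_nonneg _) (one_le_pow₀ (by norm_num))

end Pool.Agent.Y822.F
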