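import Mathlib
import Pool.Agent.Y822.Par
import Pool.Agent.Y822.F.Corr

/-! Choice of parameters in the correlation bound for linear forms. -/

set_option autoImplicit false

namespace Pool.Agent.Y822.F

open Finset Filter
open Pool.Agent.Y822
open Pool.Agent.H373R2.T7 (pz Vz Vz_low mem_pz)

/-- **correlations, with parameters** -/
theorem kl_par (A K : ℕ) (η : ℝ) (hη : 0 < η) (hη1 : η ≤ 1 / 4) : ∃ κ : ℝ, 0 < κ ∧ κ ≤ 1 ∧
    ∃ C : ℕ, ∀ᶠ N : ℕ in atTop, ∀ D : ℕ, (D : ℝ) ≤ (N : ℝ) ^ (1 / 2 - η) →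
    (∀ c c' : ℕ → ℝ, Co (yN κ N) c → Co (yN κ N) c' → ∀ f f' : ℕ × ℕ, Prim f → Prim f' →
      ∀ a a' Δ : ℕ, (∀ n ∈ Icc 1 N, Dm (yN κ N) D (n + a) (N ^ K)) →
      (∀ n ∈ Icc 1 N, Dm (yN κ N) D (n + a') (N ^ K)) → 1 ≤ Δ → Δ ≤ N ^ K →
      (∀ p : ℕ, p.Prime → p ≤ D → ∀ n : ℕ, p ∣ n + a → p ∣ n + a' → p ∣ Δ) →
      |∑ n ∈ Icc 1 N, GF (yN κ N) D c f a n * GF (yN κ N) D c' f' a' n| ≤ N / Real.log N ^ A) ∧
    (∀ c : ℕ → ℝ, Co (yN κ N) c → ∀ (f : ℕ × ℕ) (a : ℕ), (∀ n ∈ Icc 1 N, Dm (yN κ N) D (n + a) (N ^ K)) →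
      ∑ n ∈ Icc 1 N, GF (yN κ N) D c f a n ^ 2 ≤ N * Real.log N ^ C) := by
  obtain ⟨C0, K0, hC0, hK0, hcorr⟩ := corr
  obtain ⟨C1, hEE⟩ := EE_bound
  obtain ⟨β, hβ⟩ : ∃ β : ℕ, β = 2 * (A + 2 * C1 + 8) := ⟨_, rfl⟩
  obtain ⟨w, hw⟩ : ∃ w : ℝ, w = 4 * C0 * (β + 1) + 1 := ⟨_, rfl⟩
  have hC0r : (1 : ℝ) ≤ C0 := by exact_mod_cast hC0
  have hK0r : (1 : ℝ) ≤ K0 := by exact_mod_cast hK0
  have hw1 : 1 ≤ w := by rw [hw]; have : (0 : ℝ) ≤ 4 * C0 * (β + 1) := by positivity
                         linarith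
  obtain ⟨κ, hκd⟩ : ∃ κ : ℝ, κ = η / w := ⟨_, rfl⟩
  have hκ : 0 < κ := by rw [hκd]; positivity
  have hκ1 : κ ≤ 1 := by rw [hκd, div_le_one (by linarith)]; linarith
  have hκw : κ * w = η := by rw [hκd]; field_simp
  obtain ⟨C3, hC3⟩ : ∃ C3 : ℕ, C3 = ⌈4 * K / κ⌉₊ := ⟨_, rfl⟩
  have hC3' : 4 * K / κ ≤ C3 := by rw [hC3]; exact Nat.le_ceil _
  obtain ⟨M, hM⟩ : ∃ M : ℕ, M = 2 * (C3 + C1) + 1 + A + 8 := ⟨_, rfl⟩
  refine ⟨κ, hκ, hκ1, 2 * (C3 + C1) + 2, ?_⟩
  have e2 := ev_logN (ev_pow_exp (2 * C1 + A) η (16 * (2 + 2 * K0)) hη)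
  have e3 := ev_logN (ev_log_pow 1 (2 * K / κ))
  have e4 := ev_logN (eventually_ge_atTop (224 : ℝ))
  have e5 := ev_logN (Real.tendsto_log_atTop.eventually (eventually_ge_atTop ((C0 : ℝ) + 1)))
  filter_upwards [hEE, yN_facts κ hκ hκ1 M 1, e2, e3, e4, e5, eventually_ge_atTop 3] with N hE hyf h2
    h3 h4 h5 hN D hD
  obtain ⟨y1, y2, y3, y4, y5⟩ := hyf
  set y := yN κ N with hyd
  set L := Real.log N with hL
  set l := Real.log L with hl
  have hL0 : 0 < L := by linarith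
  have hL1 : 1 ≤ L := by linarith
  have hl1 : 1 ≤ l := by linarith
  have hl0 : 0 < l := by linarith
  have hN0 : (0 : ℝ) < N := by positivity
  have hNe : (N : ℝ) = Real.exp L := by rw [hL, Real.exp_log hN0]
  have hyM : M ≤ y := y5
  have hy3 : 3 ≤ y := by omega
  have hy2 : 2 ≤ y := by omega
  rw [pow_one] at h3
  rw [pow_one] at y4
  have hyr : (0 : ℝ) < y := by positivity
  have hyN : (y : ℝ) ≤ N := by exact_mod_cast y4
  have hDN : D ≤ N := by
    have : (D : ℝ) ≤ N := by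
      refine hD.trans ?_
      calc (N : ℝ) ^ (1 / 2 - η) ≤ (N : ℝ) ^ (1 : ℝ) :=
            Real.rpow_le_rpow_of_exponent_le (by exact_mod_cast (by omega : 1 ≤ N)) (by linarith)
        _ = N := Real.rpow_one _
    exact_mod_cast this
  have hEb := hE y D hDN
  have hE0 := (EE_pos y D).le
  -- powers of L
  have hLpow : ∀ j : ℕ, L ^ j = Real.exp (j * l) := by
    intro j
    rw [hl, mul_comm, Real.exp_mul, Real.exp_log hL0, Real.rpow_natCast]
  -- the logarithm to base y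
  have hly : κ * L / (2 * l) ≤ Real.log y := by
    rw [Real.le_log_iff_exp_le hyr]; exact y2
  have hlog : (Nat.log y (N ^ K) : ℝ) ≤ 2 * K * l / κ := by
    have g1 : (Nat.log y (N ^ K) : ℝ) ≤ Real.logb y ((N ^ K : ℕ) : ℝ) := Real.natLog_le_logb _ _
    have g2 : Real.log ((N ^ K : ℕ) : ℝ) ≤ K * L := by
      push_cast
      rw [Real.log_pow]
    have g3 : 0 < κ * L / (2 * l) := by positivity
    have g4 : Real.logb y ((N ^ K : ℕ) : ℝ) ≤ K * L / (κ * L / (2 * l)) := by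
      rw [Real.logb]
      exact div_le_div₀ (by positivity) g2 g3 hly
    have g5 : K * L / (κ * L / (2 * l)) = 2 * K * l / κ := by field_simp
    rw [g5] at g4
    linarith
  have h4pow : (4 : ℝ) ^ Nat.log y (N ^ K) ≤ L ^ C3 := by
    rw [hLpow]
    have g1 : (4 : ℝ) ^ Nat.log y (N ^ K) = Real.exp (Real.log 4 * Nat.log y (N ^ K)) := by
      rw [Real.exp_mul, Real.exp_log (by norm_num), Real.rpow_natCast]
    rw [g1]
    apply Real.exp_le_exp.2
    have g2 : Real.log 4 ≤ 2 := by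
      have : (4 : ℝ) = 2 ^ 2 := by norm_num
      rw [this, Real.log_pow]
      have := Real.log_two_lt_d9
      push_cast
      linarith
    have g3 : (0 : ℝ) ≤ Nat.log y (N ^ K) := Nat.cast_nonneg _
    calc Real.log 4 * Nat.log y (N ^ K) ≤ 2 * (2 * K * l / κ) :=
          mul_le_mul g2 hlog g3 (by norm_num)
      _ = 4 * K / κ * l := by ring
      _ ≤ C3 * l := mul_le_mul_of_nonneg_right hC3' hl0.le
  have hlogN : (Nat.log y (N ^ K) : ℝ) ≤ L := by
    have g2 : 2 * K * l / κ = 2 * K / κ * l := by ring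
    linarith
  have hLC : ∀ i j : ℕ, i ≤ j → L ^ i ≤ L ^ j := fun i j h => pow_le_pow_right₀ hL1 h
  constructor
  · intro c c' hc hc' f f' hf hf' a a' Δ ha ha' hΔ1 hΔM hΔ
    set b := ⌈(β : ℝ) * l⌉₊ with hb
    have hb1 : (β : ℝ) * l ≤ b := Nat.le_ceil _
    have hb2 : (b : ℝ) ≤ (β + 1) * l := by
      have := (Nat.ceil_lt_add_one (by positivity : (0 : ℝ) ≤ β * l)).le
      linarith
    have hβ1 : (1 : ℝ) ≤ β := by
      have : 1 ≤ β := by omega
      exact_mod_cast this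
    have hbC : C0 ≤ b := by
      have : (C0 : ℝ) ≤ b := by nlinarith
      exact_mod_cast this
    refine (hcorr b hbC y hy2 D N c c' hc hc' f f' hf hf' a a' (N ^ K) Δ ha ha' hΔ1 hΔM hΔ).trans ?_
    unfold KB
    -- first part
    have hhalf : (1 / 2 : ℝ) ^ b ≤ 1 / L ^ (A + 2 * C1 + 8) := by
      have g0 : 1 / L ^ (A + 2 * C1 + 8) = Real.exp (-(((A + 2 * C1 + 8 : ℕ) : ℝ) * l)) := by
        rw [hLpow, Real.exp_neg, one_div]
      have g1 : (1 / 2 : ℝ) ^ b = Real.exp (-(Real.log 2 * b)) := by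
        rw [Real.exp_neg, Real.exp_mul, Real.exp_log (by norm_num), Real.rpow_natCast, one_div,
          inv_pow]
      rw [g0, g1]
      apply Real.exp_le_exp.2
      have g2 : 1 / 2 ≤ Real.log 2 := by have := Real.log_two_gt_d9; linarith
      have g3 : (1 / 2 : ℝ) * b ≤ Real.log 2 * b := mul_le_mul_of_nonneg_right g2 (Nat.cast_nonneg _)
      have g4 : ((A + 2 * C1 + 8 : ℕ) : ℝ) * l = 1 / 2 * (β * l) := by
        rw [hβ]; push_cast; ring
      rw [g4]
      linarith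
    have hEsq : EE y D ^ 2 ≤ L ^ (2 * C1) := by
      calc EE y D ^ 2 ≤ (L ^ C1) ^ 2 := pow_le_pow_left₀ hE0 hEb 2
        _ = L ^ (2 * C1) := by rw [← pow_mul, mul_comm]
    have T1 : 4 * EE y D ^ 2 * ((1 / 2) ^ b * N) ≤ N / (4 * L ^ A) := by
      calc 4 * EE y D ^ 2 * ((1 / 2) ^ b * N)
          ≤ 4 * L ^ (2 * C1) * (1 / L ^ (A + 2 * C1 + 8) * N) := by
            apply mul_le_mul (by linarith) _ (by positivity) (by positivity)
            exact mul_le_mul_of_nonneg_right hhalf hN0.le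
        _ = (4 / L ^ 8) * (N / L ^ A) := by
            rw [pow_add, pow_add]
            field_simp
        _ ≤ (1 / 4) * (N / L ^ A) := by
            apply mul_le_mul_of_nonneg_right _ (by positivity)
            rw [div_le_div_iff₀ (by positivity) (by norm_num)]
            have : L ^ 1 ≤ L ^ 8 := hLC 1 8 (by norm_num)
            rw [pow_one] at this
            linarith
        _ = N / (4 * L ^ A) := by field_simp
    have hAd : Ad C0 K0 b y ≤ 2 * K0 * Real.exp (η * L) := by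
      unfold Ad
      have g1 : ((Pool.Agent.W41.JJ y : ℝ) + 2) ≤ 2 * y := by
        exact_mod_cast Pool.Agent.W41.JJ_small y hy3
      have g2 : (y : ℝ) ^ (2 * (C0 * b)) * (K0 * (y : ℝ) ^ (2 * (C0 * b))) =
          K0 * (y : ℝ) ^ (4 * C0 * b) := by
        rw [show 4 * C0 * b = 2 * (C0 * b) + 2 * (C0 * b) by ring, pow_add]
        ring
      rw [g2]
      calc ((Pool.Agent.W41.JJ y : ℝ) + 2) * (K0 * (y : ℝ) ^ (4 * C0 * b))
          ≤ 2 * y * (K0 * (y : ℝ) ^ (4 * C0 * b)) :=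
            mul_le_mul_of_nonneg_right g1 (by positivity)
        _ = 2 * K0 * (y : ℝ) ^ (4 * C0 * b + 1) := by rw [pow_succ]; ring
        _ ≤ 2 * K0 * Real.exp (η * L) := by
            apply mul_le_mul_of_nonneg_left _ (by positivity)
            calc (y : ℝ) ^ (4 * C0 * b + 1) ≤ Real.exp (κ * L / l) ^ (4 * C0 * b + 1) :=
                  pow_le_pow_left₀ hyr.le y1 _
              _ = Real.exp (((4 * C0 * b + 1 : ℕ) : ℝ) * (κ * L / l)) := by rw [← Real.exp_nat_mul]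
              _ ≤ Real.exp (η * L) := by
                  apply Real.exp_le_exp.2
                  rw [mul_div_assoc', div_le_iff₀ hl0]
                  have g3 : ((4 * C0 * b + 1 : ℕ) : ℝ) ≤ w * l := by
                    push_cast
                    rw [hw]
                    nlinarith [mul_le_mul_of_nonneg_left hb2 (by positivity : (0 : ℝ) ≤ 4 * C0)]
                  calc ((4 * C0 * b + 1 : ℕ) : ℝ) * (κ * L) ≤ w * l * (κ * L) :=
                        mul_le_mul_of_nonneg_right g3 (by positivity)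
                    _ = η * L * l := by rw [← hκw]; ring
    have hD2 : (D : ℝ) ^ 2 ≤ Real.exp ((1 - 2 * η) * L) := by
      calc (D : ℝ) ^ 2 ≤ ((N : ℝ) ^ (1 / 2 - η)) ^ 2 := pow_le_pow_left₀ (Nat.cast_nonneg _) hD 2
        _ = Real.exp ((1 - 2 * η) * L) := by
            rw [Real.rpow_def_of_pos hN0, ← hL, ← Real.exp_nat_mul]
            congr 1
            push_cast
            ring
    have T2 : 4 * EE y D ^ 2 * ((2 + Ad C0 K0 b y) * D ^ 2) ≤ N / (4 * L ^ A) := by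
      have hexp1 : 1 ≤ Real.exp (η * L) := Real.one_le_exp (by positivity)
      have g1 : 2 + Ad C0 K0 b y ≤ (2 + 2 * K0) * Real.exp (η * L) := by nlinarith
      have hAd0 := Ad_nonneg C0 K0 b y
      have g2 : (2 + Ad C0 K0 b y) * (D : ℝ) ^ 2 ≤
          (2 + 2 * K0) * Real.exp (η * L) * Real.exp ((1 - 2 * η) * L) :=
        mul_le_mul g1 hD2 (by positivity) (by positivity)
      have g3 : (2 + 2 * K0) * Real.exp (η * L) * Real.exp ((1 - 2 * η) * L) =
          (2 + 2 * K0) * (N / Real.exp (η * L)) := by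
        rw [mul_assoc, ← Real.exp_add, hNe, ← Real.exp_sub]
        congr 2
        ring
      rw [g3] at g2
      calc 4 * EE y D ^ 2 * ((2 + Ad C0 K0 b y) * D ^ 2)
          ≤ 4 * L ^ (2 * C1) * ((2 + 2 * K0) * (N / Real.exp (η * L))) :=
            mul_le_mul (by linarith) g2 (by positivity) (by positivity)
        _ = (16 * (2 + 2 * K0) * L ^ (2 * C1 + A)) / Real.exp (η * L) * (N / (4 * L ^ A)) := by
            rw [pow_add]
            field_simp
            ring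
        _ ≤ 1 * (N / (4 * L ^ A)) := by
            apply mul_le_mul_of_nonneg_right _ (by positivity)
            rw [div_le_one (Real.exp_pos _)]
            exact h2
        _ = _ := one_mul _
    have T3 : (4 ^ Nat.log y (N ^ K) + 3 * EE y D) ^ 2 *
        (Nat.log y (N ^ K) * ((N : ℝ) / y + 1) + 3 * (N : ℝ) / y + 2 * (D : ℝ) / y) ≤
        N / (2 * L ^ A) := by
      have g1 : (4 : ℝ) ^ Nat.log y (N ^ K) + 3 * EE y D ≤ 4 * L ^ (C3 + C1) := by
        have a1 : L ^ C3 ≤ L ^ (C3 + C1) := hLC _ _ (by omega)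
        have a2 : L ^ C1 ≤ L ^ (C3 + C1) := hLC _ _ (by omega)
        linarith
      have g2 : ((4 : ℝ) ^ Nat.log y (N ^ K) + 3 * EE y D) ^ 2 ≤ 16 * L ^ (2 * (C3 + C1)) := by
        calc _ ≤ (4 * L ^ (C3 + C1)) ^ 2 := pow_le_pow_left₀ (by positivity) g1 2
          _ = _ := by rw [mul_pow, ← pow_mul, mul_comm (C3 + C1) 2]; norm_num
      have g3 : (1 : ℝ) ≤ N / y := by rw [le_div_iff₀ hyr]; linarith
      have g4 : (D : ℝ) / y ≤ N / y :=
        div_le_div_of_nonneg_right (by exact_mod_cast hDN) hyr.le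
      have g5 : Nat.log y (N ^ K) * ((N : ℝ) / y + 1) + 3 * (N : ℝ) / y + 2 * (D : ℝ) / y ≤
          7 * L * (N / y) := by
        have a1 : Nat.log y (N ^ K) * ((N : ℝ) / y + 1) ≤ L * (2 * (N / y)) :=
          mul_le_mul hlogN (by linarith) (by positivity) hL0.le
        have a2 : 3 * (N : ℝ) / y = 3 * (N / y) := by ring
        have a3 : 2 * (D : ℝ) / y = 2 * (D / y) := by ring
        rw [a2, a3]
        nlinarith
      calc _ ≤ 16 * L ^ (2 * (C3 + C1)) * (7 * L * (N / y)) :=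
            mul_le_mul g2 g5 (by positivity) (by positivity)
        _ ≤ N / (2 * L ^ A) := by
            rw [div_eq_mul_inv (N : ℝ) (y : ℝ), div_eq_mul_inv (N : ℝ) (2 * L ^ A)]
            have e1 : 16 * L ^ (2 * (C3 + C1)) * (7 * L * (N * (y : ℝ)⁻¹)) =
                N * (112 * (L ^ (2 * (C3 + C1)) * L) * (y : ℝ)⁻¹) := by ring
            rw [e1]
            apply mul_le_mul_of_nonneg_left _ hN0.le
            rw [← div_eq_mul_inv, div_le_iff₀ hyr, inv_mul_eq_div, le_div_iff₀ (by positivity)]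
            have e2 : 112 * (L ^ (2 * (C3 + C1)) * L) * (2 * L ^ A) =
                224 * L ^ (2 * (C3 + C1) + 1 + A) := by
              rw [pow_add, pow_add, pow_one]; ring
            rw [e2]
            calc 224 * L ^ (2 * (C3 + C1) + 1 + A) ≤ L * L ^ (2 * (C3 + C1) + 1 + A) :=
                  mul_le_mul_of_nonneg_right h4 (by positivity)
              _ = L ^ (2 * (C3 + C1) + 1 + A + 1) := by rw [pow_succ]; ring
              _ ≤ L ^ M := hLC _ _ (by omega)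
              _ ≤ y := y3
    have e : 4 * EE y D ^ 2 * ((1 / 2) ^ b * N + (2 + Ad C0 K0 b y) * D ^ 2) =
        4 * EE y D ^ 2 * ((1 / 2) ^ b * N) + 4 * EE y D ^ 2 * ((2 + Ad C0 K0 b y) * D ^ 2) := by ring
    rw [e]
    have e' : (N : ℝ) / L ^ A = N / (4 * L ^ A) + N / (4 * L ^ A) + N / (2 * L ^ A) := by
      field_simp; ring
    rw [e']
    linarith
  · intro c hc f a ha
    refine (diag_le hc hy2 N ha).trans ?_
    apply mul_le_mul_of_nonneg_left _ hN0.le
    have g1 : (4 : ℝ) ^ Nat.log y (N ^ K) + EE y D ≤ 2 * L ^ (C3 + C1) := by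
      have a1 : L ^ C3 ≤ L ^ (C3 + C1) := hLC _ _ (by omega)
      have a2 : L ^ C1 ≤ L ^ (C3 + C1) := hLC _ _ (by omega)
      linarith
    calc _ ≤ (2 * L ^ (C3 + C1)) ^ 2 := pow_le_pow_left₀ (by positivity) g1 2
      _ = 4 * L ^ (2 * (C3 + C1)) := by rw [mul_pow, ← pow_mul, mul_comm (C3 + C1) 2]; norm_num
      _ ≤ L ^ 2 * L ^ (2 * (C3 + C1)) := by
          apply mul_le_mul_of_nonneg_right _ (by positivity)
          nlinarith
      _ = _ := by rw [← pow_add]; congr 1; ring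

end Pool.Agent.Y822.F
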