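import Mathlib
import Pool.Agent.Y822.F.Par
import Pool.Agent.Y822.F.Dual

/-! Few linear forms have large discrepancy, with parameters. -/

set_option autoImplicit false

namespace Pool.Agent.Y822.F

open Finset Filter
open Pool.Agent.Y822

/-- the forms of height at most `M` -/
def Ht (M : ℕ) (a : ℕ × ℕ) : Prop := Prim a ∧ 1 ≤ a.1 ∧ a.1 ≤ M ∧ a.2 ≤ M

lemma Ht_val {N K : ℕ} (hN : 2 ≤ N) {a : ℕ × ℕ} (ha : Ht (N ^ K) a) {n : ℕ} (hn : n ≤ N) :
    a.1 * lf a n ≤ N ^ (4 * K + 2) := by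
  obtain ⟨_, _, h1, h2⟩ := ha
  unfold lf
  have hN0 : 0 < N := by omega
  have hNK : 1 ≤ N ^ K := Nat.one_le_pow _ _ hN0
  calc a.1 * (a.1 * n + a.2) ≤ N ^ K * (N ^ K * N + N ^ K) := by gcongr
    _ ≤ N ^ K * (N ^ K * N + N ^ K * N) := by
        gcongr
        exact Nat.le_mul_of_pos_right _ hN0
    _ = N ^ K * N ^ K * N * 2 := by ring
    _ ≤ N ^ K * N ^ K * N * N := by gcongr
    _ = N ^ (2 * K + 2) := by rw [two_mul, pow_add, pow_add]; ring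
    _ ≤ N ^ (4 * K + 2) := Nat.pow_le_pow_right hN0 (by omega)

lemma Dl_le {N K : ℕ} (hN : 2 ≤ N) {a a' : ℕ × ℕ} (ha : Ht (N ^ K) a) (ha' : Ht (N ^ K) a') :
    Dl a a' ≤ N ^ (4 * K + 2) := by
  obtain ⟨_, _, h1, h2⟩ := ha
  obtain ⟨_, _, h3, h4⟩ := ha'
  have hN0 : 0 < N := by omega
  unfold Dl
  have h5 : max (a'.1 * a.2) (a.1 * a'.2) - min (a'.1 * a.2) (a.1 * a'.2) ≤ N ^ K * N ^ K := by
    refine (Nat.sub_le _ _).trans (max_le ?_ ?_)
    · gcongr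
    · gcongr
  calc _ ≤ N ^ K * N ^ K * (N ^ K * N ^ K) := by gcongr
    _ = N ^ (4 * K) := by rw [show 4 * K = K + K + (K + K) by ring]; simp only [pow_add]
    _ ≤ N ^ (4 * K + 2) := Nat.pow_le_pow_right hN0 (by omega)

/-- few forms, with parameters -/
theorem few_par (U K : ℕ) (η : ℝ) (hη : 0 < η) (hη1 : η ≤ 1 / 4) : ∃ κ : ℝ, 0 < κ ∧ κ ≤ 1 ∧
    ∃ C : ℕ, ∀ᶠ N : ℕ in atTop, ∀ D : ℕ, (D : ℝ) ≤ (N : ℝ) ^ (1 / 2 - η) →
    ∀ A : Finset (ℕ × ℕ), (∀ a ∈ A, Ht (N ^ K) a) →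
    ∀ f : ℕ → ℝ, (∀ n, |f n| ≤ 1) → ∀ S : Finset (ℕ × ℕ),
      (∀ a ∈ S, a ∈ A ∧ N / Real.log N ^ U < LD (yN κ N) D N f a (sg N a)) →
      (S.card : ℝ) ≤ Real.log N ^ C := by
  obtain ⟨κ, hκ, hκ1, C, hkl⟩ := kl_par (2 * U + 1) (4 * K + 2) η hη hη1
  refine ⟨κ, hκ, hκ1, C + 2 * U + 1, ?_⟩
  filter_upwards [hkl, ev_logN (eventually_ge_atTop (2 : ℝ)), eventually_ge_atTop 3] with N h1 h2 hN D
    hD A hA f hf S hS
  obtain ⟨hoff, hdiag⟩ := h1 D hD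
  set L := Real.log N with hL
  have hL0 : 0 < L := by linarith
  have hN0 : (0 : ℝ) < N := by positivity
  have hDN : D ≤ N := by
    have : (D : ℝ) ≤ N := by
      refine hD.trans ?_
      calc (N : ℝ) ^ (1 / 2 - η) ≤ (N : ℝ) ^ (1 : ℝ) :=
            Real.rpow_le_rpow_of_exponent_le (by exact_mod_cast (by omega : 1 ≤ N)) (by linarith)
        _ = N := Real.rpow_one _
    exact_mod_cast this
  have hDm : ∀ a ∈ A, ∀ n ∈ Icc 1 N, Dm (yN κ N) D (n + sg N a) (N ^ (4 * K + 2)) := by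
    intro a ha n hn
    rw [mem_Icc] at hn
    exact Dm_of_sur hDN (hA a ha).2.1 (sg_spec N (hA a ha).1) hn.1 (Ht_val (by omega) (hA a ha) hn.2)
  have hx : (1 : ℝ) / L ^ U * N = N / L ^ U := by ring
  have h3 := few_forms (y := yN κ N) (D := D) (N := N) (by omega) (DG := N * L ^ C)
    (OG := N / L ^ (2 * U + 1)) (η := 1 / L ^ U) (by positivity) (by positivity) (by positivity)
    (sg N) A (fun c hc a ha => hdiag c hc a (sg N a) (hDm a ha))
    (fun c c' hc hc' a ha a' ha' hne => hoff c c' hc hc' a a' (hA a ha).1 (hA a' ha').1 (sg N a) (sg N a')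
      (Dl a a') (hDm a ha) (hDm a' ha')
      (Dl_pos (hA a ha).1 (hA a' ha').1 (hA a ha).2.1 (hA a' ha').2.1 hne)
      (Dl_le (by omega) (hA a ha) (hA a' ha'))
      (fun p hp hpD n e1 e2 => dvd_Dl (sg_spec N (hA a ha).1) (sg_spec N (hA a' ha').1) hp (hpD.trans hDN)
        e1 e2)) ?_ f (fun n _ => hf n) S ?_
  · refine h3.trans (le_of_eq_of_le ?_ (?_ : 2 * L ^ (C + 2 * U) ≤ L ^ (C + 2 * U + 1)))
    · have e : L ^ (2 * U) = L ^ U * L ^ U := by rw [two_mul, pow_add]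
      rw [pow_add, e]
      field_simp
    · rw [pow_succ, mul_comm]
      exact mul_le_mul_of_nonneg_left h2 (by positivity)
  · have e : (1 / L ^ U) ^ 2 * N / 2 = N / (L ^ (2 * U) * 2) := by
      rw [mul_comm 2 U, pow_mul]
      field_simp
    rw [e, pow_succ]
    exact div_le_div_of_nonneg_left hN0.le (by positivity)
      (mul_le_mul_of_nonneg_left h2 (by positivity))
  · intro a ha
    rw [hx]
    exact hS a ha

end Pool.Agent.Y822.F
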