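import Mathlib
import Pool.Agent.Y822.F.Lin
import Pool.Agent.Y822.Stp

/-! From rough values to values without small prime factors, for linear forms. -/

set_option autoImplicit false

namespace Pool.Agent.Y822.F

open Finset
open Pool.Agent.W23
open Pool.Agent.W23.DC (tt pr mem_pr ind)
open Pool.Agent.W41 (JJ JJ_lt JJ_le)
open Pool.Agent.Y822
open Pool.Agent.Y822.Stp (Pin mem_Pin tt_le)
open Pool.Agent.Y822.Lin (one_div_le_g)

open Classical in
/-- all prime factors are at least `N ^ w` -/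
noncomputable def gw (N : ℕ) (w : ℝ) (m : ℕ) : ℝ := if ∀ p : ℕ, p.Prime → p ∣ m → (N : ℝ) ^ w ≤ p then 1 else 0

lemma gw_bd (N : ℕ) (w : ℝ) (m : ℕ) : 0 ≤ gw N w m ∧ gw N w m ≤ 1 := by
  unfold gw; split_ifs <;> norm_num

lemma iu_bd (N : ℕ) (ε₁ w : ℝ) (m : ℕ) : 0 ≤ iu N ε₁ w m ∧ iu N ε₁ w m ≤ 1 := by
  unfold iu; split_ifs <;> norm_num

lemma sum_inv_FU (ε₁ w : ℝ) (hε : 0 < ε₁) (hε1 : ε₁ ≤ 1) (hw0 : 0 ≤ w) (hw : w < 1 / 4) : ∃ N₀ : ℕ, ∀ N : ℕ, N₀ ≤ N →
    ∑ d ∈ FU N ε₁ w, 1 / (d : ℝ) ≤ Real.exp 1 / ε₁ := by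
  classical
  obtain ⟨N₀, H⟩ := Pool.Agent.W378.DC.MP ε₁ 1 hε one_pos
  refine ⟨max N₀ 2, fun N hN => ?_⟩
  have hN2 : 2 ≤ N := (le_max_right _ _).trans hN
  have h1 := (abs_le.1 (H N ((le_max_left _ _).trans hN) ε₁ 1 le_rfl hε1 le_rfl)).2
  have hN1 : (1 : ℝ) ≤ N := by exact_mod_cast (by omega : 1 ≤ N)
  have hpf : ∀ d ∈ FU N ε₁ w, Squarefree d ∧ d.primeFactors ⊆ pr N ε₁ 1 := by
    intro d hd
    obtain ⟨h2, h4, h3, h5⟩ := FU_facts hN2 (by linarith) hd
    refine ⟨h4, fun p hp => ?_⟩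
    have hpp := Nat.prime_of_mem_primeFactors hp
    have hpd : p ≤ d := Nat.le_of_dvd h2 (Nat.dvd_of_mem_primeFactors hp)
    have hpr : (p : ℝ) ≤ (N : ℝ) ^ (w + 1 / 4) := le_trans (by exact_mod_cast hpd) h3
    have h6 : tt N p ≤ w + 1 / 4 := tt_le hN2 hpp.pos hpr
    rw [mem_pr]
    refine ⟨⟨hpp.pos, ?_⟩, hpp, h5 p hp, by linarith⟩
    have h7 : (p : ℝ) ≤ N := by
      calc (p : ℝ) ≤ (N : ℝ) ^ (w + 1 / 4) := hpr
        _ ≤ (N : ℝ) ^ (1 : ℝ) := Real.rpow_le_rpow_of_exponent_le hN1 (by linarith)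
        _ = N := Real.rpow_one _
    exact_mod_cast h7
  have h2 : ∑ d ∈ FU N ε₁ w, 1 / (d : ℝ) ≤ ∏ p ∈ pr N ε₁ 1, (1 + 1 / (p : ℝ)) := by
    rw [prod_one_add]
    have hinj : Set.InjOn Nat.primeFactors (FU N ε₁ w : Set ℕ) := by
      intro d hd d' hd' h
      have e1 := Nat.prod_primeFactors_of_squarefree (hpf d (mem_coe.1 hd)).1
      have e2 := Nat.prod_primeFactors_of_squarefree (hpf d' (mem_coe.1 hd')).1
      rw [← e1, ← e2, h]
    have h3 : ∀ d ∈ FU N ε₁ w, 1 / (d : ℝ) = ∏ p ∈ d.primeFactors, (1 / (p : ℝ)) := by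
      intro d hd
      rw [prod_div_distrib, prod_const_one]
      congr 1
      conv_lhs => rw [← Nat.prod_primeFactors_of_squarefree (hpf d hd).1]
      push_cast
      rfl
    rw [sum_congr rfl h3, ← sum_image (f := fun T : Finset ℕ => ∏ p ∈ T, (1 / (p : ℝ))) hinj]
    refine sum_le_sum_of_subset_of_nonneg ?_ (fun T _ _ => prod_nonneg fun p _ => by positivity)
    intro T hT
    rw [mem_image] at hT
    obtain ⟨d, hd, rfl⟩ := hT
    exact mem_powerset.2 (hpf d hd).2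
  have h3 : ∏ p ∈ pr N ε₁ 1, (1 + 1 / (p : ℝ)) ≤ Real.exp (∑ p ∈ pr N ε₁ 1, 1 / ((p : ℝ) - 1)) := by
    rw [Real.exp_sum]
    refine prod_le_prod (fun p _ => by positivity) fun p hp => ?_
    have h4 := one_div_le_g (mem_pr.1 hp).2.1
    have h5 := Real.add_one_le_exp (1 / ((p : ℝ) - 1))
    linarith
  have h4 : Real.exp (∑ p ∈ pr N ε₁ 1, 1 / ((p : ℝ) - 1)) ≤ Real.exp 1 / ε₁ := by
    have h5 : ∑ p ∈ pr N ε₁ 1, 1 / ((p : ℝ) - 1) ≤ 1 + Real.log (1 / ε₁) := by linarith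
    calc _ ≤ Real.exp (1 + Real.log (1 / ε₁)) := Real.exp_le_exp.2 h5
      _ = Real.exp 1 / ε₁ := by
          rw [Real.exp_add, Real.exp_log (by positivity)]
          ring
  exact h2.trans (h3.trans h4)

/-- from the surrogate to the form -/
theorem ptw {N y : ℕ} (hN : 2 ≤ N) {ε₁ w : ℝ} (hε : ε₁ ≤ 1) (hw : w ≤ 1) {f : ℕ → ℝ}
    (hf : ∀ n, 0 ≤ f n ∧ f n ≤ 1) {a : ℕ × ℕ} (ha : Prim a) {t : ℕ} (ht : Sur N a t) (n : ℕ) :
    (f n * ro y (lf a n) * rin (Pin N y ε₁) (n + t)) * iu N ε₁ w (n + t) ≤ f n * gw N w (lf a n) := by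
  classical
  have hN1 : (1 : ℝ) ≤ N := by exact_mod_cast (by omega : 1 ≤ N)
  by_cases hz : (f n * ro y (lf a n) * rin (Pin N y ε₁) (n + t)) * iu N ε₁ w (n + t) = 0
  · rw [hz]
    exact mul_nonneg (hf n).1 (gw_bd _ _ _).1
  · have hro : ro y (lf a n) ≠ 0 := fun h => hz (by rw [h]; ring)
    have hri : rin (Pin N y ε₁) (n + t) ≠ 0 := fun h => hz (by rw [h]; ring)
    have hiu : iu N ε₁ w (n + t) ≠ 0 := fun h => hz (by rw [h]; ring)
    have hRo : Ro y (lf a n) := by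
      unfold ro at hro
      by_contra h
      rw [if_neg h] at hro
      exact hro rfl
    have hRi := rin_eq _ _ hri
    have hIu : ∀ p ∈ pr N ε₁ w, ¬ p ∣ n + t := by
      unfold iu at hiu
      by_contra h
      rw [if_neg h] at hiu
      exact hiu rfl
    have hg : gw N w (lf a n) = 1 := by
      unfold gw
      rw [if_pos]
      intro p hp hpd
      by_contra hlt
      push Not at hlt
      have hpN : p ≤ N := by
        have h3 : (N : ℝ) ^ w ≤ N := by
          calc (N : ℝ) ^ w ≤ (N : ℝ) ^ (1 : ℝ) := Real.rpow_le_rpow_of_exponent_le hN1 hw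
            _ = N := Real.rpow_one _
        exact_mod_cast hlt.le.trans h3
      have hpa : ¬ p ∣ a.1 := by
        intro h
        have h2 : p ∣ a.2 := (Nat.dvd_add_right (h.mul_right n)).1 hpd
        have h3 := Nat.dvd_gcd h h2
        rw [ha] at h3
        exact hp.one_lt.ne' (Nat.dvd_one.1 h3)
      have hps : p ∣ n + t := (ht p hp hpN hpa n).2 hpd
      have hpy : y < p := by
        by_contra h
        exact hRo p hp (not_lt.1 h) hpd
      have htw : tt N p < w := (DC.tt_lt_iff hN hp.pos _).2 hlt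
      rcases lt_or_ge (tt N p) ε₁ with h | h
      · exact hRi p (mem_Pin.2 ⟨⟨hpy, hpN⟩, hp, h⟩) hps
      · exact hIu p (mem_pr.2 ⟨⟨hp.pos, hpN⟩, hp, h, htw⟩) hps
    rw [hg, mul_one]
    calc (f n * ro y (lf a n) * rin (Pin N y ε₁) (n + t)) * iu N ε₁ w (n + t)
        ≤ (f n * 1 * 1) * 1 := by
          have h0 := hf n
          apply mul_le_mul _ (iu_bd _ _ _ _).2 (iu_bd _ _ _ _).1 (by linarith)
          apply mul_le_mul _ (rin_le_one _ _) (rin_nonneg _ _) (by linarith)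
          exact mul_le_mul_of_nonneg_left (ro_le_one _ _) h0.1
      _ = f n := by ring

/-- **one shift** -/
theorem step (w : ℝ) (hw12 : 1 / 12 ≤ w) (hw4 : w < 1 / 4) : ∃ c₀ : ℝ, 0 < c₀ ∧ ∃ C0 : ℕ, 1 ≤ C0 ∧
    ∀ δ' : ℝ, 0 < δ' → ∃ ε₁ : ℝ, 0 < ε₁ ∧ ε₁ ≤ 1 / 25 ∧
    ε₁ ≤ δ' ∧ ∃ N₀ : ℕ, ∀ N : ℕ, N₀ ≤ N → ∀ y : ℕ, C0 ≤ y → ∀ f : ℕ → ℝ, (∀ n, 0 ≤ f n ∧ f n ≤ 1) →
    ∀ (a : ℕ × ℕ) (t : ℕ), Prim a → Sur N a t →
    c₀ * ε₁ * (W0 y N f a * VP (Pin N y ε₁)) - (Real.log N + 3) *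
      (∑ d ∈ FU N ε₁ w, ∑ T ∈ (Pin N y ε₁).powerset.filter
        (fun T : Finset ℕ => ((∏ p ∈ T, p : ℕ) : ℝ) ≤ (N : ℝ) ^ δ'), |rr y N f a t (d * ∏ p ∈ T, p)|)
      ≤ ∑ n ∈ Icc 1 N, f n * gw N w (lf a n) := by
  classical
  obtain ⟨c₀, hc₀, H1⟩ := lowU w hw12 hw4
  obtain ⟨C0, hC0, H2⟩ := inner
  refine ⟨c₀ / 2, by positivity, C0, hC0, ?_⟩
  intro δ' hδ'
  have hC0r : (1 : ℝ) ≤ C0 := by exact_mod_cast hC0
  -- the choice of `b`
  have ht1 : Filter.Tendsto (fun n : ℕ => (n : ℝ) ^ 2 * (1 / 2 : ℝ) ^ n) Filter.atTop (nhds 0) :=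
    tendsto_pow_const_mul_const_pow_of_abs_lt_one 2 (by rw [abs_of_pos] <;> norm_num)
  have hK : (0 : ℝ) < c₀ * (δ' / (2 * C0)) ^ 2 / (6 * Real.exp 1) := by positivity
  obtain ⟨b, hb1, hb2, hb3⟩ := ((ht1.eventually_le_const hK).and
    ((Filter.eventually_ge_atTop C0).and ((tendsto_natCast_atTop_atTop (R := ℝ)).eventually_ge_atTop
      (max 1 (25 * δ'))))).exists
  have hb4 : (1 : ℝ) ≤ b := (le_max_left _ _).trans hb3
  have hb5 : 25 * δ' ≤ b := (le_max_right _ _).trans hb3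
  obtain ⟨ε₁, hε₁⟩ : ∃ ε₁ : ℝ, ε₁ = δ' / (2 * C0 * b) := ⟨_, rfl⟩
  have hε0 : 0 < ε₁ := by rw [hε₁]; positivity
  have hε25 : ε₁ ≤ 1 / 25 := by
    rw [hε₁, div_le_div_iff₀ (by positivity) (by norm_num)]
    nlinarith
  have hεδ : ε₁ ≤ δ' := by
    rw [hε₁]
    apply div_le_self hδ'.le
    nlinarith
  have hlev : 2 * ε₁ * (C0 * b) = δ' := by rw [hε₁]; field_simp
  have hbε : (1 / 2 : ℝ) ^ b * (Real.exp 1 / ε₁) * 3 ≤ c₀ * ε₁ / 2 := by
    have h1 : δ' / (2 * C0) = ε₁ * b := by rw [hε₁]; field_simp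
    rw [h1] at hb1
    have h2 : (1 / 2 : ℝ) ^ b ≤ c₀ * ε₁ ^ 2 / (6 * Real.exp 1) := by
      have h3 : (b : ℝ) ^ 2 * (1 / 2 : ℝ) ^ b ≤ b ^ 2 * (c₀ * ε₁ ^ 2 / (6 * Real.exp 1)) := by
        refine hb1.trans (le_of_eq ?_)
        ring
      exact le_of_mul_le_mul_left h3 (by positivity)
    calc (1 / 2 : ℝ) ^ b * (Real.exp 1 / ε₁) * 3 ≤ c₀ * ε₁ ^ 2 / (6 * Real.exp 1) * (Real.exp 1 / ε₁) * 3 := by
          gcongr
      _ = c₀ * ε₁ / 2 := by
          field_simp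
          ring
  refine ⟨ε₁, hε0, hε25, hεδ, ?_⟩
  obtain ⟨N₁, hN₁⟩ := H1 ε₁ hε0 hε25
  obtain ⟨N₂, hN₂⟩ := sum_inv_FU ε₁ w hε0 (by linarith) (by linarith) hw4
  refine ⟨max (max N₁ N₂) 3, ?_⟩
  intro N hN y hy f hf a t ha ht
  have hNN₁ : N₁ ≤ N := ((le_max_left _ _).trans (le_max_left _ _)).trans hN
  have hNN₂ : N₂ ≤ N := ((le_max_right _ _).trans (le_max_left _ _)).trans hN
  have hN3 : 3 ≤ N := (le_max_right _ _).trans hN
  have hN2 : 2 ≤ N := by omega
  have hN1 : (1 : ℝ) ≤ N := by exact_mod_cast (by omega : 1 ≤ N)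
  have hN0 : (0 : ℝ) < N := by linarith
  set P := Pin N y ε₁ with hP
  set Z := ⌊(N : ℝ) ^ ε₁⌋₊ with hZ
  have hZr : (Z : ℝ) ≤ (N : ℝ) ^ ε₁ := Nat.floor_le (by positivity)
  set Z' := max Z 2 with hZ'
  obtain ⟨J, hJ⟩ : ∃ J : ℕ, J = JJ Z' := ⟨_, rfl⟩
  have hW0 : 0 ≤ W0 y N f a := sum_nonneg fun n _ => mul_nonneg (hf n).1 (ro_nonneg _ _)
  have hVP : 0 ≤ VP P := by
    refine prod_nonneg fun p hp => ?_
    have hp2 : (2 : ℝ) ≤ p := by exact_mod_cast (mem_Pin.1 hp).2.1.two_le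
    rw [sub_nonneg, div_le_one (by linarith)]
    linarith
  have hX : 0 ≤ W0 y N f a * VP P := mul_nonneg hW0 hVP
  have hPlt : ∀ p ∈ P, (p : ℝ) < (N : ℝ) ^ ε₁ := fun p hp =>
    (DC.tt_lt_iff hN2 (mem_Pin.1 hp).2.1.pos _).1 (mem_Pin.1 hp).2.2
  have hPJ : ∀ p ∈ P, p.Prime ∧ y < p ∧ p ≤ 2 ^ 2 ^ J := by
    intro p hp
    refine ⟨(mem_Pin.1 hp).2.1, (mem_Pin.1 hp).1.1, ?_⟩
    have h1 : p ≤ Z := Nat.le_floor (hPlt p hp).le
    rw [hJ]
    exact (h1.trans (le_max_left _ _)).trans (JJ_lt Z').le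
  -- the level, if `P` is nonempty
  have hpow : P.Nonempty → (((2 ^ 2 ^ J) ^ (C0 * b) : ℕ) : ℝ) ≤ (N : ℝ) ^ δ' := by
    rintro ⟨p, hp⟩
    have h1 : p ≤ Z := Nat.le_floor (hPlt p hp).le
    have h2 : 2 ≤ Z := (mem_Pin.1 hp).2.1.two_le.trans h1
    have h3 : Z' = Z := max_eq_left h2
    have h4 : (((2 ^ 2 ^ J : ℕ)) : ℝ) ≤ ((N : ℝ) ^ ε₁) ^ 2 := by
      have h5 : 2 ^ 2 ^ J ≤ Z ^ 2 := by
        rw [hJ, h3]
        exact JJ_le Z h2
      calc (((2 ^ 2 ^ J : ℕ)) : ℝ) ≤ ((Z ^ 2 : ℕ) : ℝ) := by exact_mod_cast h5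
        _ = (Z : ℝ) ^ 2 := by push_cast; rfl
        _ ≤ _ := pow_le_pow_left₀ (Nat.cast_nonneg _) hZr 2
    calc (((2 ^ 2 ^ J) ^ (C0 * b) : ℕ) : ℝ) = (((2 ^ 2 ^ J : ℕ)) : ℝ) ^ (C0 * b) := by push_cast; rfl
      _ ≤ (((N : ℝ) ^ ε₁) ^ 2) ^ (C0 * b) := pow_le_pow_left₀ (Nat.cast_nonneg _) h4 _
      _ = (N : ℝ) ^ δ' := by
          rw [← pow_mul, ← Real.rpow_natCast, ← Real.rpow_mul hN0.le]
          congr 1
          push_cast
          linarith [hlev]
  have hone : (1 : ℝ) ≤ (N : ℝ) ^ δ' := Real.one_le_rpow hN1 hδ'.le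
  have hJL : ((J : ℝ) + 2) ≤ Real.log N + 3 ∨ P = ∅ := by
    rcases P.eq_empty_or_nonempty with h | ⟨p, hp⟩
    · exact Or.inr h
    · left
      have h1 : p ≤ Z := Nat.le_floor (hPlt p hp).le
      have h2 : 2 ≤ Z := (mem_Pin.1 hp).2.1.two_le.trans h1
      have h3 : Z' = Z := max_eq_left h2
      have h5 : 2 ^ 2 ^ J ≤ Z ^ 2 := by
        rw [hJ, h3]
        exact JJ_le Z h2
      have h6 : (((2 ^ 2 ^ J : ℕ)) : ℝ) ≤ N := by
        calc (((2 ^ 2 ^ J : ℕ)) : ℝ) ≤ ((Z ^ 2 : ℕ) : ℝ) := by exact_mod_cast h5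
          _ = (Z : ℝ) ^ 2 := by push_cast; rfl
          _ ≤ ((N : ℝ) ^ ε₁) ^ 2 := pow_le_pow_left₀ (Nat.cast_nonneg _) hZr 2
          _ = (N : ℝ) ^ (ε₁ * 2) := by rw [← Real.rpow_natCast, ← Real.rpow_mul hN0.le]; norm_num
          _ ≤ (N : ℝ) ^ (1 : ℝ) := Real.rpow_le_rpow_of_exponent_le hN1 (by linarith)
          _ = N := Real.rpow_one _
      have h7 : J ≤ 2 ^ J := Nat.lt_two_pow_self.le
      have h8 : ((2 : ℝ) ^ (J : ℝ)) ≤ N := by
        rw [Real.rpow_natCast]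
        refine le_trans ?_ h6
        push_cast
        exact pow_le_pow_right₀ (by norm_num) h7
      have h9 : (2 : ℝ) ^ ((2 ^ J : ℕ) : ℝ) ≤ N := by
        rw [Real.rpow_natCast]
        exact_mod_cast h6
      have h10 : ((2 ^ J : ℕ) : ℝ) * Real.log 2 ≤ Real.log N := by
        rw [← Real.log_rpow (by norm_num)]
        exact Real.log_le_log (by positivity) h9
      have h11 : (J : ℝ) ≤ ((2 ^ J : ℕ) : ℝ) / 2 + 1 := by
        have : 2 * J ≤ 2 ^ J + 2 := by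
          clear * -
          induction J with
          | zero => norm_num
          | succ J ih =>
            rcases Nat.lt_or_ge J 2 with h | h
            · interval_cases J <;> norm_num
            · have : 2 ≤ 2 ^ J := by
                calc 2 = 2 ^ 1 := by norm_num
                  _ ≤ 2 ^ J := Nat.pow_le_pow_right (by norm_num) (by omega)
              rw [pow_succ]
              omega
        have h12 : (2 : ℝ) * J ≤ ((2 ^ J : ℕ) : ℝ) + 2 := by exact_mod_cast this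
        linarith
      have h12 := Real.log_two_gt_d9
      have h13 : (0 : ℝ) ≤ ((2 ^ J : ℕ) : ℝ) := Nat.cast_nonneg _
      nlinarith
  -- the two bounds
  have key1 := hN₁ N hNN₁ (Icc 1 N) (fun n => f n * ro y (lf a n) * rin P (n + t)) (fun n => n + t)
    (W0 y N f a * VP P)
    (fun n _ => mul_nonneg (mul_nonneg (hf n).1 (ro_nonneg _ _)) (rin_nonneg _ _)) hX
  set S2 := ∑ d ∈ FU N ε₁ w, ∑ T ∈ P.powerset.filter
        (fun T : Finset ℕ => ((∏ p ∈ T, p : ℕ) : ℝ) ≤ (N : ℝ) ^ δ'), |rr y N f a t (d * ∏ p ∈ T, p)| with hS2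
  have hS20 : 0 ≤ S2 := sum_nonneg fun d _ => sum_nonneg fun T _ => abs_nonneg _
  have hlogN : 0 ≤ Real.log N := Real.log_nonneg hN1
  have key2 : ∑ d ∈ FU N ε₁ w, |(∑ n ∈ Icc 1 N, (f n * ro y (lf a n) * rin P (n + t)) * ind (n + t) d) -
      W0 y N f a * VP P * (1 / (d : ℝ))| ≤
      (1 / 2) ^ b * (W0 y N f a * VP P) * (Real.exp 1 / ε₁) + (Real.log N + 3) * S2 := by
    have h1 : ∀ d ∈ FU N ε₁ w, |(∑ n ∈ Icc 1 N, (f n * ro y (lf a n) * rin P (n + t)) * ind (n + t) d) -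
      W0 y N f a * VP P * (1 / (d : ℝ))| ≤ (1 / 2) ^ b * (W0 y N f a * VP P) * (1 / (d : ℝ)) +
      (Real.log N + 3) * ∑ T ∈ P.powerset.filter
        (fun T : Finset ℕ => ((∏ p ∈ T, p : ℕ) : ℝ) ≤ (N : ℝ) ^ δ'), |rr y N f a t (d * ∏ p ∈ T, p)| := by
      intro d hd
      obtain ⟨hd1, -, -, hdp⟩ := FU_facts hN2 (by linarith) hd
      have hPd : ∀ p ∈ P, ¬ p ∣ d := by
        intro p hp hpd
        have hpp := (mem_Pin.1 hp).2.1
        have h2 := hdp p (Nat.mem_primeFactors.2 ⟨hpp, hpd, by omega⟩)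
        have h3 := (mem_Pin.1 hp).2.2
        linarith
      have h2 := H2 b J y N P hb2 hy hPJ f (fun n => (hf n).1) a t d hd1 hPd
      have h3 : Aw y N P f a t d = ∑ n ∈ Icc 1 N, (f n * ro y (lf a n) * rin P (n + t)) * ind (n + t) d := rfl
      rw [h3] at h2
      refine h2.trans ?_
      have h4 : (1 / 2 : ℝ) ^ b * (W0 y N f a * VP P * (1 / (d : ℝ))) =
        (1 / 2) ^ b * (W0 y N f a * VP P) * (1 / (d : ℝ)) := by ring
      rw [h4]
      have h5 : ((J : ℝ) + 2) * ∑ T ∈ P.powerset.filter (fun T : Finset ℕ => ∏ p ∈ T, p ≤ (2 ^ 2 ^ J) ^ (C0 * b)),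
          |rr y N f a t (d * ∏ p ∈ T, p)| ≤ (Real.log N + 3) * ∑ T ∈ P.powerset.filter
        (fun T : Finset ℕ => ((∏ p ∈ T, p : ℕ) : ℝ) ≤ (N : ℝ) ^ δ'), |rr y N f a t (d * ∏ p ∈ T, p)| := by
        rcases P.eq_empty_or_nonempty with hPe | hPn
        · have h8 : rr y N f a t d = 0 ∨ d ≠ 1 := by
            rcases eq_or_ne d 1 with h | h
            · left
              rw [h]
              unfold rr cen
              apply sum_eq_zero
              intro n _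
              simp
            · exact Or.inr h
          -- `J = JJ 2`-independent crude bound is not available; use the direct count
          have h9 : ((J : ℝ) + 2) ≤ Real.log N + 3 ∨ ¬ ((J : ℝ) + 2 ≤ Real.log N + 3) := em _
          rcases h9 with h9 | h9
          · apply mul_le_mul h9 _ (sum_nonneg fun T _ => abs_nonneg _) (by linarith)
            rw [hPe]
            simp only [powerset_empty]
            apply sum_le_sum_of_subset_of_nonneg
            · intro T hT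
              rw [mem_filter, mem_singleton] at hT ⊢
              rw [hT.1]
              simp
              exact hone
            · intro T _ _
              exact abs_nonneg _
          · exfalso
            apply h9
            -- `Z' ≤ N`, so the same bound for `J`
            have hZN : Z' ≤ N := by
              apply max_le _ hN2
              have h3 : (N : ℝ) ^ ε₁ ≤ N := by
                calc (N : ℝ) ^ ε₁ ≤ (N : ℝ) ^ (1 : ℝ) := Real.rpow_le_rpow_of_exponent_le hN1 (by linarith)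
                  _ = N := Real.rpow_one _
              exact_mod_cast hZr.trans h3
            have g1 : Nat.log 2 Z' ≤ Nat.log 2 N := Nat.log_mono_right hZN
            have g2 : (Nat.log 2 N : ℝ) ≤ Real.logb 2 N := Real.natLog_le_logb _ _
            have g3 : (J : ℝ) = (Nat.log 2 (Nat.log 2 Z') : ℝ) + 1 := by
              rw [hJ]; unfold JJ; push_cast; rfl
            have g4 : 2 * Nat.log 2 (Nat.log 2 Z') ≤ Nat.log 2 Z' := by
              set L := Nat.log 2 Z' with hL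
              have hL1 : 1 ≤ L := by
                rw [hL]
                exact Nat.log_pos (by norm_num) (le_max_right _ _)
              have h5 : 2 ^ Nat.log 2 L ≤ L := Nat.pow_log_le_self 2 (by omega)
              have h6 : ∀ k : ℕ, 2 * k ≤ 2 ^ k := by
                intro k
                induction k with
                | zero => norm_num
                | succ k ih =>
                  rcases Nat.eq_zero_or_pos k with rfl | hk
                  · norm_num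
                  · have : 2 ≤ 2 ^ k := by
                      calc 2 = 2 ^ 1 := by norm_num
                        _ ≤ 2 ^ k := Nat.pow_le_pow_right (by norm_num) hk
                    rw [pow_succ]
                    omega
              exact (h6 _).trans h5
            have g5 : 2 * (Nat.log 2 (Nat.log 2 Z') : ℝ) ≤ Nat.log 2 N := by
              exact_mod_cast g4.trans g1
            have g6 : Real.logb 2 N = Real.log N / Real.log 2 := rfl
            have g7 := Real.log_two_gt_d9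
            have g8 : Real.log N / Real.log 2 ≤ 2 * Real.log N := by
              rw [div_le_iff₀ (by linarith)]
              nlinarith
            rw [g3]
            linarith
        · have h6 : ((J : ℝ) + 2) ≤ Real.log N + 3 := by
            rcases hJL with h | h
            · exact h
            · rw [h] at hPn
              exact absurd hPn (by simp)
          apply mul_le_mul h6 _ (sum_nonneg fun T _ => abs_nonneg _) (by linarith)
          apply sum_le_sum_of_subset_of_nonneg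
          · intro T hT
            rw [mem_filter] at hT ⊢
            refine ⟨hT.1, le_trans ?_ (hpow hPn)⟩
            exact_mod_cast hT.2
          · intro T _ _
            exact abs_nonneg _
      linarith
    refine (sum_le_sum h1).trans ?_
    rw [sum_add_distrib, ← mul_sum, ← mul_sum]
    have h2 := hN₂ N hNN₂
    have h3 : 0 ≤ (1 / 2 : ℝ) ^ b * (W0 y N f a * VP P) := by positivity
    have h4 := mul_le_mul_of_nonneg_left h2 h3
    linarith
  have key3 : ∑ n ∈ Icc 1 N, (f n * ro y (lf a n) * rin P (n + t)) * iu N ε₁ w (n + t) ≤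
      ∑ n ∈ Icc 1 N, f n * gw N w (lf a n) :=
    sum_le_sum fun n _ => ptw hN2 (by linarith) (by linarith) hf ha ht n
  have h5 : (1 / 2) ^ b * (W0 y N f a * VP P) * (Real.exp 1 / ε₁) ≤ c₀ * ε₁ / 2 * (W0 y N f a * VP P) := by
    have h6 := mul_le_mul_of_nonneg_right hbε hX
    have h7 : 0 ≤ (1 / 2 : ℝ) ^ b * (W0 y N f a * VP P) * (Real.exp 1 / ε₁) := by positivity
    linarith
  linarith

end Pool.Agent.Y822.F
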