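import Mathlib
import Pool.Agent.Y822.Low
import Pool.Agent.Y822.F.Stp
import Pool.Agent.Y822.F.Err
import Pool.Agent.Y822.F.Few
import Pool.Agent.Y822.F.Base

/-! Values without small prime factors of almost all systems of linear forms: the theorem. -/

set_option autoImplicit false

namespace Pool.Agent.Y822.F

open Finset Filter
open Pool.Agent.W23.DC (tt)
open Pool.Agent.Y822
open Pool.Agent.H373R2.T7 (pz Vz mem_pz)
open Pool.Agent.Y822.Stp (Pin mem_Pin)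
open Pool.Agent.Y822.Par3 (zN zN_facts zN_lt)
open Pool.Agent.Y822.Low (VP_Vz yN_le_zN)

/-- the final computation -/
lemma calc_low {k j : ℕ} {cs cb L n u V W x P : ℝ} (hcs : 0 < cs) (hcb : 0 < cb) (hL : 1 ≤ L)
    (hn : 0 < n) (hLb : 2 * (k + 2) / (cb * cs ^ (k + 1)) ≤ L) (hu0 : 0 ≤ u) (hu1 : u ≤ 1)
    (huV : cs / L ≤ u * V) (hx : x = n / L ^ (j + k + 2))
    (hW : cb * (n / L ^ j * V ^ (k + 1)) - x ≤ W) (hP : u ^ (k + 1) * W - (k + 1) * x ≤ P) :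
    cb * cs ^ (k + 1) / 2 * (n / L ^ (j + k + 1)) ≤ P := by
  have hL0 : 0 < L := by linarith
  have hx0 : 0 ≤ x := by rw [hx]; positivity
  have hupos : 0 ≤ u ^ (k + 1) := pow_nonneg hu0 _
  have hule : u ^ (k + 1) ≤ 1 := pow_le_one₀ hu0 hu1
  have g1 : u ^ (k + 1) * (cb * (n / L ^ j * V ^ (k + 1)) - x) ≤ u ^ (k + 1) * W :=
    mul_le_mul_of_nonneg_left hW hupos
  have g2 : u ^ (k + 1) * x ≤ x := by
    calc u ^ (k + 1) * x ≤ 1 * x := mul_le_mul_of_nonneg_right hule hx0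
      _ = x := one_mul _
  have g4 : (cs / L) ^ (k + 1) ≤ (u * V) ^ (k + 1) := pow_le_pow_left₀ (by positivity) huV _
  have g3 : cb * cs ^ (k + 1) * (n / L ^ (j + k + 1)) ≤ u ^ (k + 1) * (cb * (n / L ^ j * V ^ (k + 1))) := by
    calc cb * cs ^ (k + 1) * (n / L ^ (j + k + 1)) = cb * (n / L ^ j) * (cs / L) ^ (k + 1) := by
          rw [div_pow, show j + k + 1 = j + (k + 1) by ring, pow_add L j (k + 1)]
          field_simp
      _ ≤ cb * (n / L ^ j) * (u * V) ^ (k + 1) := mul_le_mul_of_nonneg_left g4 (by positivity)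
      _ = _ := by rw [mul_pow]; ring
  have g5 : (k + 2) * x ≤ cb * cs ^ (k + 1) / 2 * (n / L ^ (j + k + 1)) := by
    have h1 : 2 * ((k : ℝ) + 2) ≤ L * (cb * cs ^ (k + 1)) := by
      rwa [div_le_iff₀ (by positivity)] at hLb
    have h2 : x * L = n / L ^ (j + k + 1) := by
      rw [hx, show j + k + 2 = (j + k + 1) + 1 by ring, pow_succ]
      field_simp
    rw [← h2]
    calc ((k : ℝ) + 2) * x = 1 / 2 * (2 * (k + 2)) * x := by ring
      _ ≤ 1 / 2 * (L * (cb * cs ^ (k + 1))) * x := by gcongr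
      _ = _ := by ring
  have e2 : u ^ (k + 1) * (cb * (n / L ^ j * V ^ (k + 1)) - x) =
      u ^ (k + 1) * (cb * (n / L ^ j * V ^ (k + 1))) - u ^ (k + 1) * x := by ring
  rw [e2] at g1
  have e3 : ((k : ℝ) + 2) * x = (k + 1) * x + x := by ring
  rw [e3] at g5
  have e4 : cb * cs ^ (k + 1) * (n / L ^ (j + k + 1)) =
    cb * cs ^ (k + 1) / 2 * (n / L ^ (j + k + 1)) + cb * cs ^ (k + 1) / 2 * (n / L ^ (j + k + 1)) := by ring
  linarith

/-- the error functional -/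
noncomputable def ZF (D y N : ℕ) (f : ℕ → ℝ) (a : ℕ × ℕ) : ℝ := (Real.log N + 3) * LD y D N f a (sg N a)

/-- **lower bound for all but few systems** -/
theorem final (w : ℝ) (hw12 : 1 / 12 ≤ w) (hw4 : w < 1 / 4) (K k j : ℕ) (e : ℕ → ℝ)
    (he : ∀ n, 0 ≤ e n ∧ e n ≤ 1) (Adq : Finset (ℕ × ℕ) → Prop)
    (hbase : ∃ c : ℝ, 0 < c ∧ ∀ (κ : ℝ), 0 < κ → κ ≤ 1 → ∀ U : ℕ, ∀ᶠ N : ℕ in atTop,
      ∀ (g : ℕ × ℕ → ℕ → ℝ) (H : Finset (ℕ × ℕ)), H.card = k + 1 → (∀ a ∈ H, Prim a) → Adq H →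
        c * (N / Real.log N ^ j * Vz (yN κ N) ^ (k + 1)) - N / Real.log N ^ U ≤
          ∑ n ∈ Icc 1 N, WH e g (rf (yN κ N)) H ∅ n) :
    ∃ c : ℝ, 0 < c ∧ ∃ B : ℕ, ∀ᶠ N : ℕ in atTop, ∀ A : Finset (ℕ × ℕ), (∀ a ∈ A, Ht (N ^ K) a) →
      ∀ Bad : Finset (Finset (ℕ × ℕ)), (∀ H ∈ Bad, H ∈ A.powersetCard (k + 1) ∧ Adq H ∧
        ∑ n ∈ Icc 1 N, e n * ∏ a ∈ H, gw N w (lf a n) < c * (N / Real.log N ^ (j + k + 1))) →
      (Bad.card : ℝ) ≤ A.card.choose k * Real.log N ^ B := by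
  classical
  obtain ⟨cb, hcb, hbase⟩ := hbase
  obtain ⟨c₀', hc₀', C0, hC0, STEP⟩ := step w hw12 hw4
  obtain ⟨cz, hcz, VZ⟩ := Vz_sharp
  obtain ⟨c₀, hc₀d⟩ : ∃ c₀ : ℝ, c₀ = min c₀' 1 := ⟨_, rfl⟩
  have hc₀ : 0 < c₀ := by rw [hc₀d]; exact lt_min hc₀' one_pos
  have hc₀1 : c₀ ≤ 1 := by rw [hc₀d]; exact min_le_right _ _
  have hc₀2 : c₀ ≤ c₀' := by rw [hc₀d]; exact min_le_left _ _
  obtain ⟨δ', hδ'd⟩ : ∃ δ' : ℝ, δ' = (1 / 4 - w) / 2 := ⟨_, rfl⟩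
  have hδ' : 0 < δ' := by rw [hδ'd]; linarith
  have hδ'4 : δ' ≤ 1 / 4 := by rw [hδ'd]; linarith
  have hlev : w + 1 / 4 + δ' = 1 / 2 - δ' := by rw [hδ'd]; ring
  obtain ⟨ε₁, hε₁, hε₁25, _, N₁, STEP⟩ := STEP δ' hδ'
  have hε₁1 : ε₁ ≤ 1 := by linarith
  obtain ⟨κ, hκ, hκ01, C, HF⟩ := few_par (j + k + 2 + 2) K δ' hδ' hδ'4
  refine ⟨cb * (c₀ * cz) ^ (k + 1) / 2, by positivity, C + 1, ?_⟩
  have e1 := ev_logN (eventually_ge_atTop (max 3 (max ((2 : ℝ) ^ (k + 1))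
    (2 * (k + 2) / (cb * (c₀ * cz) ^ (k + 1))))))
  filter_upwards [HF, hbase κ hκ hκ01 (j + k + 2), yN_facts κ hκ hκ01 (max C0 3) 1, zN_facts ε₁ hε₁ hε₁1 3,
    yN_le_zN κ ε₁ hκ hκ01 hε₁ hε₁1, e1, eventually_ge_atTop (max N₁ 3)]
    with N HF hb hyf hzf hyz h1 hN
  intro A hA Bad hBad
  have hNN₁ : N₁ ≤ N := (le_max_left _ _).trans hN
  have hN3 : 3 ≤ N := (le_max_right _ _).trans hN
  have hN2 : 2 ≤ N := by omega
  obtain ⟨y1, y2, y3, y4, y5⟩ := hyf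
  obtain ⟨z1, z2, z3, z4, z5⟩ := hzf
  set y := yN κ N with hy
  set z := zN ε₁ N with hz
  set L := Real.log N with hLd
  have hN0 : (0 : ℝ) < N := by positivity
  have hL3 : 3 ≤ L := (le_max_left _ _).trans h1
  have hL2k : (2 : ℝ) ^ (k + 1) ≤ L := ((le_max_left _ _).trans (le_max_right _ _)).trans h1
  have hLb : 2 * (k + 2) / (cb * (c₀ * cz) ^ (k + 1)) ≤ L :=
    ((le_max_right _ _).trans (le_max_right _ _)).trans h1
  have hL0 : 0 < L := by linarith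
  have hL1 : 1 ≤ L := by linarith
  have hyC0 : C0 ≤ y := (le_max_left _ _).trans y5
  have hy3 : 3 ≤ y := (le_max_right _ _).trans y5
  have hz3 : 3 ≤ z := z2
  set x : ℝ := N / L ^ (j + k + 2) with hx
  have hx0 : 0 ≤ x := by positivity
  have hyε : (y : ℝ) < (N : ℝ) ^ ε₁ := by
    have h5 := zN_lt (ε₁ := ε₁) (N := N) (by omega)
    have h6 : (y : ℝ) ≤ z := by exact_mod_cast hyz
    exact lt_of_le_of_lt h6 h5
  -- the factor of one step
  set u : ℝ := c₀ * ε₁ * VP (Pin N y ε₁) with hu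
  have hVP : 0 ≤ VP (Pin N y ε₁) ∧ VP (Pin N y ε₁) ≤ 1 := by
    unfold VP
    have hb : ∀ p ∈ Pin N y ε₁, 0 ≤ 1 - 1 / (p : ℝ) ∧ 1 - 1 / (p : ℝ) ≤ 1 := by
      intro p hp
      have hp1 : (1 : ℝ) ≤ p := by exact_mod_cast (mem_Pin.1 hp).2.1.one_lt.le
      have : 1 / (p : ℝ) ≤ 1 := by rw [div_le_one (by linarith)]; exact hp1
      have h0 : 0 ≤ 1 / (p : ℝ) := by positivity
      constructor <;> linarith
    exact ⟨prod_nonneg fun p hp => (hb p hp).1, prod_le_one (fun p hp => (hb p hp).1) fun p hp => (hb p hp).2⟩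
  have hu0 : 0 ≤ u := by rw [hu]; exact mul_nonneg (by positivity) hVP.1
  have hu1 : u ≤ 1 := by
    rw [hu]
    have : c₀ * ε₁ ≤ 1 := mul_le_one₀ hc₀1 hε₁.le hε₁1
    exact mul_le_one₀ this hVP.1 hVP.2
  have huV : c₀ * cz / L ≤ u * Vz y := by
    have t1 : u * Vz y = c₀ * ε₁ * Vz z := by
      rw [hu, mul_assoc, VP_Vz hN2 hyz z5]
    rw [t1]
    have t2 := VZ z hz3
    have hz0 : (0 : ℝ) < z := by positivity
    have t3 : Real.log z ≤ ε₁ * L := by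
      have h5 := (zN_lt (ε₁ := ε₁) (N := N) (by omega)).le
      rw [← hz] at h5
      calc Real.log z ≤ Real.log ((N : ℝ) ^ ε₁) := Real.log_le_log hz0 h5
        _ = ε₁ * L := Real.log_rpow hN0 _
    have t4 : 0 < Real.log z := Real.log_pos (by exact_mod_cast (by omega : 1 < z))
    have t5 : cz / (ε₁ * L) ≤ Vz z := (div_le_div_of_nonneg_left hcz.le t4 t3).trans t2
    calc c₀ * cz / L = c₀ * ε₁ * (cz / (ε₁ * L)) := by field_simp
      _ ≤ c₀ * ε₁ * Vz z := mul_le_mul_of_nonneg_left t5 (by positivity)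
  obtain ⟨D, hD⟩ : ∃ D : ℕ, D = ⌊(N : ℝ) ^ (w + 1 / 4 + δ')⌋₊ := ⟨_, rfl⟩
  have hDle : (D : ℝ) ≤ (N : ℝ) ^ (1 / 2 - δ') := by
    rw [hD, ← hlev]
    exact Nat.floor_le (by positivity)
  set g : ℕ × ℕ → ℕ → ℝ := fun a n => gw N w (lf a n) with hg
  have hgbd : ∀ t n, 0 ≤ g t n ∧ g t n ≤ 1 := fun t n => gw_bd _ _ _
  -- the systems which are not good
  have hbad : ∀ H ∈ Bad, H ∈ A.powersetCard (k + 1) ∧ ¬ Good e g (rf y) (ZF D y N) x H := by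
    intro H hH
    obtain ⟨b1, b2, b3⟩ := hBad H hH
    refine ⟨b1, fun hgood => ?_⟩
    rw [mem_powersetCard] at b1
    have hHt : ∀ a ∈ H, Ht (N ^ K) a := fun a ha => hA a (b1.1 ha)
    have hZ : ∀ f : ℕ → ℝ, (∀ n, 0 ≤ f n ∧ f n ≤ 1) → ∀ t ∈ H, ZF D y N f t ≤ x →
        u * ∑ n ∈ Icc 1 N, f n * rf y t n - x ≤ ∑ n ∈ Icc 1 N, f n * g t n := by
      intro f hf01 t ht hZt
      have hs := STEP N hNN₁ y hyC0 f hf01 t (sg N t) (hHt t ht).1 (sg_spec N (hHt t ht).1)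
      have hE := err_le (y := y) (ε₁ := ε₁) (w := w) (δ' := δ') hN2 (by linarith) hyε f t (sg N t)
      rw [← hD] at hE
      have hE' := mul_le_mul_of_nonneg_left hE (by linarith : 0 ≤ Real.log N + 3)
      have hW0 : 0 ≤ W0 y N f t := sum_nonneg fun n _ => mul_nonneg (hf01 n).1 (ro_nonneg _ _)
      have h5 : u * ∑ n ∈ Icc 1 N, f n * rf y t n ≤ c₀' * ε₁ * (W0 y N f t * VP (Pin N y ε₁)) := by
        have e : u * ∑ n ∈ Icc 1 N, f n * rf y t n = c₀ * (ε₁ * (W0 y N f t * VP (Pin N y ε₁))) := by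
          rw [hu]; unfold W0 rf; ring
        rw [e, mul_assoc c₀']
        exact mul_le_mul_of_nonneg_right hc₀2 (mul_nonneg hε₁.le (mul_nonneg hW0 hVP.1))
      unfold ZF at hZt
      linarith
    have hlower := step_lower (N := N) hx0 hu0 hu1 he hgbd (rf_bd y) hZ hgood H (subset_refl _)
    rw [b1.2] at hlower
    have hm := hb g H b1.2 (fun a ha => (hHt a ha).1) b2
    have hfull : ∑ n ∈ Icc 1 N, WH e g (rf y) H H n = ∑ n ∈ Icc 1 N, e n * ∏ a ∈ H, gw N w (lf a n) := by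
      refine sum_congr rfl fun n _ => ?_
      unfold WH
      rw [Finset.sdiff_self, prod_empty, mul_one]
    have hfin := calc_low (k := k) (j := j) (cs := c₀ * cz) (cb := cb) (L := L) (n := N) (u := u) (V := Vz y)
      (W := ∑ n ∈ Icc 1 N, WH e g (rf y) H ∅ n) (x := x)
      (P := ∑ n ∈ Icc 1 N, WH e g (rf y) H H n) (by positivity) hcb hL1 hN0 hLb hu0 hu1 huV hx hm
      (by push_cast at hlower; linarith)
    rw [hfull] at hfin
    linarith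
  have hfew : ∀ f : ℕ → ℝ, (∀ n, |f n| ≤ 1) → ∀ S : Finset (ℕ × ℕ), (∀ a ∈ S, a ∈ A ∧ x < ZF D y N f a) →
      (S.card : ℝ) ≤ L ^ C := by
    intro f hf S hS
    refine HF D hDle A hA f hf S (fun a ha => ⟨(hS a ha).1, ?_⟩)
    have h2 := (hS a ha).2
    unfold ZF at h2
    rw [← hLd] at h2
    have h3 : N / L ^ (j + k + 2 + 2) * (L + 3) ≤ x := by
      rw [hx, pow_add L (j + k + 2) 2]
      have h4 : (N : ℝ) / (L ^ (j + k + 2) * L ^ 2) * (L + 3) = N / L ^ (j + k + 2) * ((L + 3) / L ^ 2) := by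
        field_simp
      rw [h4]
      have h5 : (L + 3) / L ^ 2 ≤ 1 := by
        rw [div_le_one (by positivity)]
        nlinarith
      calc _ ≤ (N : ℝ) / L ^ (j + k + 2) * 1 := mul_le_mul_of_nonneg_left h5 (by positivity)
        _ = _ := mul_one _
    have h6 : N / L ^ (j + k + 2 + 2) * (L + 3) < LD y D N f a (sg N a) * (L + 3) := by
      rw [mul_comm (LD _ _ _ _ _ _)]
      linarith
    exact lt_of_mul_lt_mul_right h6 (by linarith)
  have hfinal := few_bad (K := L ^ C) (by positivity) he hgbd (rf_bd y) A hfew k Bad hbad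
  refine hfinal.trans (mul_le_mul_of_nonneg_left ?_ (Nat.cast_nonneg _))
  have g1 : (2 : ℝ) ^ k ≤ L := by
    have : (2 : ℝ) ^ k ≤ 2 ^ (k + 1) := pow_le_pow_right₀ (by norm_num) (by omega)
    linarith
  calc (2 : ℝ) ^ k * L ^ C ≤ L * L ^ C := by gcongr
    _ = L ^ (C + 1) := by ring

end Pool.Agent.Y822.F
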