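import Mathlib
import Pool.Agent.Y822.F.Fin

/-! From the main theorem to statements about counts. -/

set_option autoImplicit false

namespace Pool.Agent.Y822.F

open Finset Filter
open Pool.Agent.Y822

lemma nuF_lt {H : Finset (ℕ × ℕ)} {p : ℕ} (hp : 0 < p) (h : ∃ n : ℕ, ∀ a ∈ H, ¬ p ∣ lf a n) : nuF H p < p := by
  classical
  obtain ⟨n, hn⟩ := h
  unfold nuF
  have h1 : (range p).filter (fun r => QF H p r) ⊂ range p := by
    rw [filter_ssubset]
    refine ⟨n % p, mem_range.2 (Nat.mod_lt _ hp), ?_⟩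
    rw [QF_mod]
    rintro ⟨a, ha, h⟩
    exact hn a ha h
  simpa using card_lt_card h1

lemma nuP_lt {H : Finset (ℕ × ℕ)} {p : ℕ} (hp : 0 < p) (h : ∃ n : ℕ, ¬ p ∣ n ∧ ∀ a ∈ H, ¬ p ∣ lf a n) :
    nuP H p < p := by
  classical
  obtain ⟨n, hn0, hn⟩ := h
  unfold nuP
  have h1 : (range p).filter (fun r => p ∣ r ∨ QF H p r) ⊂ range p := by
    rw [filter_ssubset]
    refine ⟨n % p, mem_range.2 (Nat.mod_lt _ hp), ?_⟩
    rw [QF_mod]
    rintro (h | ⟨a, ha, h⟩)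
    · exact hn0 ((Nat.dvd_mod_iff (dvd_refl p)).1 h)
    · exact hn a ha h
  simpa using card_lt_card h1

lemma pow_len_le (x : ℝ) (hx : 0 ≤ x) : ∀ l : List ℕ, (∀ p ∈ l, x ≤ p) → x ^ l.length ≤ ((l.prod : ℕ) : ℝ)
  | [], _ => by simp
  | p :: l, h => by
    have h1 := pow_len_le x hx l (fun q hq => h q (List.mem_cons_of_mem p hq))
    have h2 := h p List.mem_cons_self
    rw [List.length_cons, pow_succ, List.prod_cons, Nat.cast_mul, mul_comm]
    exact mul_le_mul h2 h1 (pow_nonneg hx _) (Nat.cast_nonneg _)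

/-- a number without prime factors below `N ^ w` has few prime factors -/
lemma len_le {N r m : ℕ} {w : ℝ} (hN : 1 ≤ N) (hw : 0 ≤ w) (hm : m ≠ 0)
    (hZ : (m : ℝ) < (N : ℝ) ^ (w * (r + 1)))
    (h : ∀ p : ℕ, p.Prime → p ∣ m → (N : ℝ) ^ w ≤ p) : m.primeFactorsList.length ≤ r := by
  by_contra hlt
  push Not at hlt
  have hN0 : (0 : ℝ) < N := by exact_mod_cast hN
  have hN1 : (1 : ℝ) ≤ (N : ℝ) ^ w := Real.one_le_rpow (by exact_mod_cast hN) hw
  have h1 := pow_len_le ((N : ℝ) ^ w) (by positivity) m.primeFactorsList (fun p hp =>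
    h p (Nat.prime_of_mem_primeFactorsList hp) (Nat.dvd_of_mem_primeFactorsList hp))
  rw [Nat.prod_primeFactorsList hm] at h1
  have h2 : (N : ℝ) ^ (w * (r + 1)) ≤ ((N : ℝ) ^ w) ^ m.primeFactorsList.length := by
    have e : (N : ℝ) ^ (w * (r + 1)) = ((N : ℝ) ^ w) ^ (r + 1) := by
      rw [← Real.rpow_natCast, ← Real.rpow_mul hN0.le]
      push_cast
      rfl
    rw [e]
    exact pow_le_pow_right₀ hN1 hlt
  linarith

lemma prod_gw (N : ℕ) (w : ℝ) (H : Finset (ℕ × ℕ)) (n : ℕ) (P : Prop) [Decidable P]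
    (h : (∀ a ∈ H, ∀ p : ℕ, p.Prime → p ∣ lf a n → (N : ℝ) ^ w ≤ p) → P) :
    ∏ a ∈ H, gw N w (lf a n) ≤ if P then 1 else 0 := by
  classical
  split_ifs with hP
  · exact prod_le_one (fun a _ => (gw_bd _ _ _).1) fun a _ => (gw_bd _ _ _).2
  · have h2 : ¬ ∀ a ∈ H, ∀ p : ℕ, p.Prime → p ∣ lf a n → (N : ℝ) ^ w ≤ p := fun h3 => hP (h h3)
    rw [not_forall] at h2
    obtain ⟨a, ha⟩ := h2
    rw [Classical.not_imp] at ha
    apply le_of_eq
    refine prod_eq_zero ha.1 ?_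
    unfold gw
    rw [if_neg ha.2]

end Pool.Agent.Y822.F
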